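import Mathlib

set_option autoImplicit false

/-!
# Permanental means and scaling means
-/

namespace Pool.Agent.N256.LLP

open MeasureTheory
open scoped ENNReal

/-- The permanental mean `(per B / n!) ^ (1 / n)` of an `n × n` matrix `B`. -/
noncomputable def pmean {n : ℕ} (B : Matrix (Fin n) (Fin n) ℝ) : ℝ :=
  (B.permanent / (n.factorial : ℝ)) ^ (1 / (n : ℝ))

section

variable {Ω : Type*}

/-- The `n × n` matrix `f^{(n)}(ω)` with the entries `f (T^{(i,j)} ω)`, where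
`T^{(i,j)} = T₁^i T₂^j` for `0 ≤ i, j ≤ n - 1`. -/
def sampled (T₁ T₂ : Ω → Ω) (f : Ω → ℝ) (n : ℕ) (ω : Ω) : Matrix (Fin n) (Fin n) ℝ :=
  Matrix.of fun i j => f (T₁^[(i : ℕ)] (T₂^[(j : ℕ)] ω))

variable [MeasurableSpace Ω]

/-- The geometric mean `exp (∫ log φ dP)` of a positive function. -/
noncomputable def gm (P : Measure Ω) (φ : Ω → ℝ) : ℝ := Real.exp (∫ ω, Real.log (φ ω) ∂P)

/-- The positive functions with integrable logarithm which are measurable with respect to the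
sigma-algebra of the `T`-invariant sets. -/
def Scal (P : Measure Ω) (T : Ω → Ω) : Set (Ω → ℝ) :=
  {g | Measurable[MeasurableSpace.invariants T] g ∧ (∀ ω, 0 < g ω) ∧
    Integrable (fun ω => Real.log (g ω)) P}

/-- The scaling mean: the infimum of `(∫ g₁ f g₂ dP) / (gm g₁ * gm g₂)` over all `g₁`, `g₂` as above
for the invariant sets of `T₁` and of `T₂`. -/
noncomputable def smean (P : Measure Ω) (T₁ T₂ : Ω → Ω) (f : Ω → ℝ) : ℝ≥0∞ :=
  ⨅ g₁ ∈ Scal P T₁, ⨅ g₂ ∈ Scal P T₂,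
    (∫⁻ ω, ENNReal.ofReal (g₁ ω * f ω * g₂ ω) ∂P) / ENNReal.ofReal (gm P g₁ * gm P g₂)

end

end Pool.Agent.N256.LLP
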