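import Mathlib
import Pool.Agent.R243.Erg.Max

set_option autoImplicit false
set_option linter.unusedSectionVars false

/-!
# Ergodic averages for two commuting maps
-/

namespace Pool.Agent.N256.LLP

open MeasureTheory Filter Topology Set ProbabilityTheory
open Pool.Agent.R243.Erg (av av_meas birkhoff_L1)

variable {Ω : Type*} [MeasurableSpace Ω] {P : Measure Ω} {S T : Ω → Ω}

lemma av_mono (R : Ω → Ω) (k : ℕ) {f g : Ω → ℝ} (h : ∀ y, f y ≤ g y) (x : Ω) :
    av R k f x ≤ av R k g x := by
  unfold av
  exact mul_le_mul_of_nonneg_left (Finset.sum_le_sum fun i _ => h _) (by positivity)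

lemma av_nonneg (R : Ω → Ω) (k : ℕ) {f : Ω → ℝ} (h : ∀ y, 0 ≤ f y) (x : Ω) : 0 ≤ av R k f x := by
  unfold av
  exact mul_nonneg (by positivity) (Finset.sum_nonneg fun i _ => h _)

lemma av_le_const (R : Ω → Ω) (k : ℕ) {f : Ω → ℝ} {K : ℝ} (hK : 0 ≤ K) (h : ∀ y, f y ≤ K) (x : Ω) :
    av R k f x ≤ K := by
  unfold av
  rcases Nat.eq_zero_or_pos k with hk | hk
  · subst hk; simpa using hK
  · have hk0 : (0 : ℝ) < k := by exact_mod_cast hk
    rw [inv_mul_le_iff₀ hk0]
    calc ∑ i ∈ Finset.range k, f (R^[i] x) ≤ ∑ i ∈ Finset.range k, K :=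
          Finset.sum_le_sum fun i _ => h _
      _ = k * K := by simp

lemma av_abs_le_const (R : Ω → Ω) (k : ℕ) {f : Ω → ℝ} {K : ℝ} (hK : 0 ≤ K) (h : ∀ y, |f y| ≤ K)
    (x : Ω) : |av R k f x| ≤ K :=
  (Pool.Agent.R243.Erg.av_abs_le R k f x).trans (av_le_const R k hK h x)

/-- The averages along `T` are uniformly close to their limit in the mean along the orbit of `S`. -/
theorem erg_dev [IsProbabilityMeasure P] (hS : MeasurePreserving S P P) (hT : MeasurePreserving T P P)
    {h w : Ω → ℝ} (hh : Measurable h) (hw : Measurable w) {K : ℝ} (hK : 0 ≤ K)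
    (hhK : ∀ x, |h x| ≤ K) (hwK : ∀ x, |w x| ≤ K)
    (hlim : ∀ᵐ x ∂P, Tendsto (fun n : ℕ => av T n h x) atTop (𝓝 (w x))) :
    ∀ᵐ x ∂P, Tendsto (fun n : ℕ => av S n (fun y => |av T n h y - w y|) x) atTop (𝓝 0) := by
  set D : ℕ → Ω → ℝ := fun n y => |av T n h y - w y| with hD
  have hDm : ∀ n, Measurable (D n) := fun n => ((av_meas hT.measurable hh n).sub hw).abs
  have hD0 : ∀ n y, 0 ≤ D n y := fun n y => abs_nonneg _
  have hDK : ∀ n y, D n y ≤ 2 * K := by
    intro n y
    refine (abs_sub _ _).trans ?_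
    have h1 := av_abs_le_const T n hK hhK y
    have h2 := hwK y
    linarith
  set H : ℕ → Ω → ℝ := fun N y => ⨆ n, D (N + n) y with hH
  have hbdd : ∀ N y, BddAbove (range fun n => D (N + n) y) := fun N y =>
    ⟨2 * K, by rintro _ ⟨n, rfl⟩; exact hDK _ _⟩
  have hHm : ∀ N, Measurable (H N) := fun N => Measurable.iSup fun n => hDm (N + n)
  have hDH : ∀ N n y, N ≤ n → D n y ≤ H N y := by
    intro N n y hn
    obtain ⟨k, rfl⟩ := Nat.exists_eq_add_of_le hn
    exact le_ciSup (hbdd N y) k
  have hH0 : ∀ N y, 0 ≤ H N y := fun N y => (hD0 N y).trans (hDH N N y le_rfl)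
  have hHK : ∀ N y, H N y ≤ 2 * K := fun N y => ciSup_le fun n => hDK _ _
  have hHlim : ∀ᵐ y ∂P, Tendsto (fun N => H N y) atTop (𝓝 0) := by
    filter_upwards [hlim] with y hy
    rw [Metric.tendsto_atTop] at hy ⊢
    intro ε hε
    obtain ⟨N, hN⟩ := hy (ε / 2) (by positivity)
    refine ⟨N, fun n hn => ?_⟩
    rw [Real.dist_eq, sub_zero, abs_of_nonneg (hH0 n y)]
    refine lt_of_le_of_lt (ciSup_le fun k => ?_) (half_lt_self hε)
    have := hN (n + k) (by omega)
    rw [Real.dist_eq] at this
    exact this.le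
  have hHint : ∀ N, Integrable (H N) P := fun N =>
    Integrable.mono' (integrable_const (2 * K)) (hHm N).aestronglyMeasurable
      (Eventually.of_forall fun y => by rw [Real.norm_of_nonneg (hH0 N y)]; exact hHK N y)
  have hHI : Tendsto (fun N => ∫ y, H N y ∂P) atTop (𝓝 0) := by
    have h1 := tendsto_integral_of_dominated_convergence (μ := P) (F := H) (f := fun _ => (0 : ℝ))
      (fun _ => 2 * K) (fun N => (hHm N).aestronglyMeasurable) (integrable_const _)
      (fun N => Eventually.of_forall fun y => by rw [Real.norm_of_nonneg (hH0 N y)]; exact hHK N y)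
      hHlim
    simpa using h1
  set κ : ℕ → Ω → ℝ := fun N => P[H N | MeasurableSpace.invariants S] with hκ
  have hκ0 : ∀ N, ∀ᵐ y ∂P, 0 ≤ κ N y := fun N =>
    condExp_nonneg (Eventually.of_forall fun y => hH0 N y)
  have hκI : ∀ N, ∫ y, κ N y ∂P = ∫ y, H N y ∂P := fun N =>
    integral_condExp (MeasurableSpace.invariants_le S)
  have hκint : ∀ N, Integrable (κ N) P := fun N => integrable_condExp
  have hmeas : TendstoInMeasure P κ atTop (fun _ => (0 : ℝ)) := by
    refine tendstoInMeasure_of_tendsto_eLpNorm (p := 1) one_ne_zero (fun N => (hκint N).1)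
      aestronglyMeasurable_const ?_
    have h1 : ∀ N, eLpNorm (κ N - fun _ => (0 : ℝ)) 1 P = ENNReal.ofReal (∫ y, H N y ∂P) := by
      intro N
      have h2 : κ N - (fun _ => (0 : ℝ)) = κ N := by ext y; simp
      rw [h2, eLpNorm_one_eq_lintegral_enorm, ← hκI N,
        ofReal_integral_eq_lintegral_ofReal (hκint N) (hκ0 N)]
      apply lintegral_congr_ae
      filter_upwards [hκ0 N] with y hy
      rw [Real.enorm_eq_ofReal hy]
    simp only [h1]
    have h2 := ENNReal.tendsto_ofReal hHI
    simpa using h2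
  obtain ⟨ns, hns, hns'⟩ := hmeas.exists_seq_tendsto_ae
  have hb : ∀ᵐ x ∂P, ∀ N, Tendsto (fun n : ℕ => av S n (H N) x) atTop (𝓝 (κ N x)) := by
    rw [ae_all_iff]
    exact fun N => birkhoff_L1 hS (hHm N) (hHint N)
  filter_upwards [hns', hb] with x h1 h2
  rw [Metric.tendsto_atTop]
  intro ε hε
  have h3 : ∀ᶠ k in atTop, κ (ns k) x < ε := (tendsto_order.1 h1).2 ε hε
  obtain ⟨k, hk⟩ := h3.exists
  obtain ⟨n0, hn0⟩ := eventually_atTop.1 ((tendsto_order.1 (h2 (ns k))).2 ε hk)
  refine ⟨max n0 (ns k), fun n hn => ?_⟩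
  rw [Real.dist_eq, sub_zero, abs_of_nonneg (av_nonneg S n (hD0 n) x)]
  exact (av_mono S n (fun y => hDH (ns k) n y ((le_max_right _ _).trans hn)) x).trans_lt
    (hn0 n ((le_max_left _ _).trans hn))

/-- The conditional expectation, given the `T`-invariant sets, of a bounded function which is invariant
under `S` is constant. -/
theorem const_of_inv [IsProbabilityMeasure P] (hT : MeasurePreserving T P P)
    (hc : Function.Commute S T)
    (herg : ∀ s, MeasurableSet s → S ⁻¹' s = s → T ⁻¹' s = s → P s = 0 ∨ P s = 1)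
    {h : Ω → ℝ} (hh : Measurable h) {K : ℝ} (hK : 0 ≤ K) (hhK : ∀ x, |h x| ≤ K)
    (hinv : ∀ x, h (S x) = h x) :
    ∀ᵐ x ∂P, (P[h | MeasurableSpace.invariants T]) x = ∫ y, h y ∂P := by
  have hint : Integrable h P := Integrable.mono' (integrable_const K) hh.aestronglyMeasurable
    (Eventually.of_forall fun y => hhK y)
  have hb := birkhoff_L1 hT hh hint
  set g : Ω → ℝ := fun x => limsup (fun n : ℕ => av T n h x) atTop with hg
  have hgm : Measurable g := Measurable.limsup fun n => av_meas hT.measurable hh n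
  have hgS : ∀ x, g (S x) = g x := by
    intro x
    have h1 : ∀ n, av T n h (S x) = av T n h x := by
      intro n
      unfold av
      congr 1
      apply Finset.sum_congr rfl
      intro i _
      have h2 : T^[i] (S x) = S (T^[i] x) := (hc.iterate_right i).symm x
      rw [h2, hinv]
    simp only [hg, h1]
  have hbd : ∀ x, IsBoundedUnder (· ≤ ·) atTop (fun n : ℕ => av T n h x) := fun x =>
    isBoundedUnder_of ⟨K, fun n => (le_abs_self _).trans (av_abs_le_const T n hK hhK x)⟩
  have hbd' : ∀ x, IsBoundedUnder (· ≥ ·) atTop (fun n : ℕ => av T n h x) := fun x =>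
    isBoundedUnder_of ⟨-K, fun n => (abs_le.1 (av_abs_le_const T n hK hhK x)).1⟩
  have hgT : ∀ x, g (T x) = g x := by
    intro x
    have h1 : Tendsto (fun n : ℕ => av T n h (T x) - av T n h x) atTop (𝓝 0) := by
      have h2 : ∀ n : ℕ, |av T n h (T x) - av T n h x| ≤ 2 * K * (n : ℝ)⁻¹ := by
        intro n
        unfold av
        rw [← mul_sub]
        have h3 : ∑ i ∈ Finset.range n, h (T^[i] (T x)) - ∑ i ∈ Finset.range n, h (T^[i] x) =
            h (T^[n] x) - h x := by
          have h4 : ∀ i, h (T^[i] (T x)) = h (T^[i+1] x) := fun i => rfl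
          simp only [h4]
          have := Finset.sum_range_succ' (fun i => h (T^[i] x)) n
          have h5 := Finset.sum_range_succ (fun i => h (T^[i] x)) n
          simp only [Function.iterate_zero, id] at this
          linarith
        rw [h3, abs_mul, abs_inv, Nat.abs_cast, mul_comm]
        apply mul_le_mul_of_nonneg_right _ (by positivity)
        refine (abs_sub _ _).trans ?_
        have := hhK (T^[n] x)
        have := hhK x
        linarith
      refine squeeze_zero_norm h2 ?_
      have := tendsto_inv_atTop_nhds_zero_nat (𝕜 := ℝ)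
      simpa using this.const_mul (2 * K)
    have h2 : (fun n : ℕ => av T n h (T x)) =
        (fun n : ℕ => av T n h x + (av T n h (T x) - av T n h x)) := by ext n; ring
    simp only [hg]
    rw [h2]
    apply le_antisymm
    · have h3 := limsup_add_le (u := fun n : ℕ => av T n h x)
        (v := fun n : ℕ => av T n h (T x) - av T n h x) (f := atTop) (hbd' x) (hbd x)
        h1.isBoundedUnder_ge.isCoboundedUnder_le h1.isBoundedUnder_le
      rw [h1.limsup_eq, add_zero] at h3
      exact h3
    · have h4 : ((fun n : ℕ => av T n h x + (av T n h (T x) - av T n h x)) +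
          (fun n : ℕ => -(av T n h (T x) - av T n h x))) = (fun n : ℕ => av T n h x) := by
        ext n; simp
      have h5 : Tendsto (fun n : ℕ => -(av T n h (T x) - av T n h x)) atTop (𝓝 0) := by
        simpa using h1.neg
      have h6 := limsup_add_le (u := fun n : ℕ => av T n h x + (av T n h (T x) - av T n h x))
        (v := fun n : ℕ => -(av T n h (T x) - av T n h x)) (f := atTop)
        (by rw [← h2]; exact hbd' (T x)) (by rw [← h2]; exact hbd (T x))
        h5.isBoundedUnder_ge.isCoboundedUnder_le h5.isBoundedUnder_le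
      rw [h5.limsup_eq, add_zero] at h6
      rw [h4] at h6
      exact h6
  -- `g` is constant
  obtain ⟨c, hc'⟩ : ∃ c, ∀ᵐ x ∂P, g x = c := by
    refine exists_eventuallyEq_const_of_forall_separating (l := ae P) (f := g) MeasurableSet ?_
    intro U hU
    have h1 := herg (g ⁻¹' U) (hgm hU) (by ext x; simp [hgS]) (by ext x; simp [hgT])
    rcases h1 with h1 | h1
    · right
      rw [measure_eq_zero_iff_ae_notMem] at h1
      filter_upwards [h1] with x hx
      exact hx
    · left
      rw [← prob_compl_eq_zero_iff (hgm hU), measure_eq_zero_iff_ae_notMem] at h1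
      filter_upwards [h1] with x hx
      simpa using hx
  have h1 : ∀ᵐ x ∂P, (P[h | MeasurableSpace.invariants T]) x = c := by
    filter_upwards [hb, hc'] with x h2 h3
    rw [← h3]
    exact h2.limsup_eq.symm
  have h2 : ∫ y, h y ∂P = c := by
    rw [← integral_condExp (MeasurableSpace.invariants_le T) (f := h) (μ := P),
      integral_congr_ae h1]
    simp
  rw [h2]
  exact h1

/-- The invariant sigma-algebras are independent. -/
theorem indep_inv [IsProbabilityMeasure P] (hT : MeasurePreserving T P P)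
    (hc : Function.Commute S T)
    (herg : ∀ s, MeasurableSet s → S ⁻¹' s = s → T ⁻¹' s = s → P s = 0 ∨ P s = 1) :
    Indep (MeasurableSpace.invariants S) (MeasurableSpace.invariants T) P := by
  rw [Indep_iff]
  intro s t hs ht
  have hsm : MeasurableSet s := MeasurableSpace.invariants_le S s hs
  have htm : MeasurableSet t := MeasurableSpace.invariants_le T t ht
  have h1 := const_of_inv (P := P) hT hc herg (h := s.indicator fun _ => (1 : ℝ))
    (measurable_const.indicator hsm) zero_le_one (fun x => by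
      by_cases hx : x ∈ s <;> simp [hx]) (fun x => by
      have : S x ∈ s ↔ x ∈ s := by rw [← mem_preimage, hs.2]
      by_cases hx : x ∈ s
      · simp [hx, this.2 hx]
      · have hx' : S x ∉ s := fun h => hx (this.1 h)
        simp [hx, hx'])
  have h2 : ∫ x in t, s.indicator (fun _ => (1 : ℝ)) x ∂P = P.real (s ∩ t) := by
    rw [integral_indicator hsm, Measure.restrict_restrict hsm]
    simp
  have h3 : ∫ x in t, s.indicator (fun _ => (1 : ℝ)) x ∂P = P.real s * P.real t := by
    rw [← setIntegral_condExp (MeasurableSpace.invariants_le T) (f := s.indicator fun _ => (1 : ℝ))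
      (μ := P) ((integrable_const _).indicator hsm) ht]
    rw [integral_congr_ae (ae_restrict_of_ae h1)]
    rw [integral_indicator hsm]
    simp [mul_comm]
  have h4 : P.real (s ∩ t) = P.real s * P.real t := by rw [← h2, h3]
  have h5 : P (s ∩ t) = ENNReal.ofReal (P.real (s ∩ t)) := by simp
  rw [h5, h4, ENNReal.ofReal_mul measureReal_nonneg]
  simp

end Pool.Agent.N256.LLP
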