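import Mathlib
import Pool.Agent.H450R3.FgVdw3

set_option autoImplicit false
open scoped BigOperators

/-!
# Lower bound for the permanent of a matrix with almost constant row and column averages
-/

namespace Pool.Agent.N256.LLP

open Pool.Agent.H450R3.Fg Pool.Agent.Helper886.HCube MvPolynomial

variable {n : ℕ}

lemma pol_stab_pos {A : Matrix (Fin n) (Fin n) ℝ} (hA : ∀ i j, 0 < A i j) : Stab (pol A) := by
  intro z hz
  rw [pol_ev, Finset.prod_ne_zero_iff]
  intro i _ h1
  have h2 : (∑ j, ((A i j : ℝ) : ℂ) * z j).re = ∑ j, A i j * (z j).re := by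
    rw [Complex.re_sum]
    apply Finset.sum_congr rfl
    intro j _
    rw [Complex.re_ofReal_mul]
  rw [h1, Complex.zero_re] at h2
  have h3 : 0 < ∑ j, A i j * (z j).re :=
    Finset.sum_pos (fun j _ => mul_pos (hA i j) (hz j)) ⟨i, Finset.mem_univ _⟩
  linarith

lemma cap_lower {A : Matrix (Fin n) (Fin n) ℝ} (hA : ∀ i j, 0 < A i j) {c : ℝ} (hc : 0 < c)
    (h : ∀ x : Fin n → ℝ, (∀ i, 0 < x i) → c * ∏ i, x i ≤ ∏ i, ∑ j, A i j * x j) :
    c * ((n.factorial : ℝ) / (n : ℝ) ^ n) ≤ A.permanent := by
  have h1 := gurvits n (pol A) (pol_hom A) (pol_stab_pos hA) c hc (by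
    intro x hx
    rw [pol_ev]
    have h2 : ∏ i, ∑ j, ((A i j : ℝ) : ℂ) * (x j : ℂ) = ((∏ i, ∑ j, A i j * x j : ℝ) : ℂ) := by
      push_cast; rfl
    rw [h2, Complex.norm_real]
    exact (h x hx).trans (le_abs_self _))
  rw [← GG_eq]
  refine h1.trans (le_of_eq ?_)
  rw [pol_coeff, Complex.norm_real, per_eq, Real.norm_of_nonneg]
  exact Finset.sum_nonneg fun σ _ => Finset.prod_nonneg fun i _ => (hA _ _).le

/-- row average -/
noncomputable def rav (B : Matrix (Fin n) (Fin n) ℝ) (i : Fin n) : ℝ := (∑ j, B i j) / n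

/-- column average -/
noncomputable def cav (B : Matrix (Fin n) (Fin n) ℝ) (j : Fin n) : ℝ := (∑ i, B i j) / n

/-- mean deviation of the row averages from one -/
noncomputable def er (B : Matrix (Fin n) (Fin n) ℝ) : ℝ := (∑ i, |rav B i - 1|) / n

/-- mean deviation of the column averages from one -/
noncomputable def ec (B : Matrix (Fin n) (Fin n) ℝ) : ℝ := (∑ j, |cav B j - 1|) / n

lemma log_sub_le {a b l : ℝ} (hl : 0 < l) (ha : l ≤ a) (hb : l ≤ b) :
    Real.log a - Real.log b ≤ |a - b| / l := by
  have ha0 : 0 < a := hl.trans_le ha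
  have hb0 : 0 < b := hl.trans_le hb
  rw [← Real.log_div ha0.ne' hb0.ne']
  have h1 := Real.log_le_sub_one_of_pos (div_pos ha0 hb0)
  have h2 : a / b - 1 = (a - b) / b := by field_simp
  rw [h2] at h1
  refine h1.trans ?_
  refine (div_le_div_of_nonneg_right (le_abs_self _) hb0.le).trans ?_
  exact div_le_div_of_nonneg_left (abs_nonneg _) hl hb

/-- the inequality for vectors with bounded logarithms -/
lemma core {B : Matrix (Fin n) (Fin n) ℝ} (hn : 0 < n) {l L M : ℝ} (hl : 0 < l) (hl1 : l ≤ 1)
    (hB : ∀ i j, l ≤ B i j) (hB' : ∀ i j, B i j ≤ L)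
    (z : Fin n → ℝ) (hz : ∀ j, 0 < z j) (hzM : ∀ j, |Real.log (z j)| ≤ M) :
    ∑ j, Real.log (z j) - n * (er B / l + M * (ec B + L * er B / l)) ≤
      ∑ i, Real.log ((∑ j, B i j * z j) / n) := by
  have hn0 : (0 : ℝ) < n := by exact_mod_cast hn
  have hBp : ∀ i j, 0 < B i j := fun i j => hl.trans_le (hB i j)
  have hL : 0 ≤ L := by
    have i0 : Fin n := ⟨0, hn⟩
    exact (hBp i0 i0).le.trans (hB' i0 i0)
  have hr : ∀ i, l ≤ rav B i := by
    intro i
    rw [rav, le_div_iff₀ hn0]
    calc l * n = ∑ j : Fin n, l := by simp [mul_comm]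
      _ ≤ _ := Finset.sum_le_sum fun j _ => hB i j
  have hr0 : ∀ i, 0 < rav B i := fun i => hl.trans_le (hr i)
  have hrs : ∀ i, ∑ j, B i j = n * rav B i := by
    intro i; rw [rav]; field_simp
  -- Jensen
  have h1 : ∀ i, Real.log (rav B i) + ∑ j, B i j / (n * rav B i) * Real.log (z j) ≤
      Real.log ((∑ j, B i j * z j) / n) := by
    intro i
    have hw : ∀ j ∈ Finset.univ, 0 ≤ B i j / (n * rav B i) := fun j _ =>
      (div_pos (hBp i j) (mul_pos hn0 (hr0 i))).le
    have hw1 : ∑ j, B i j / (n * rav B i) = 1 := by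
      rw [← Finset.sum_div, hrs, div_self (mul_pos hn0 (hr0 i)).ne']
    have h2 := strictConcaveOn_log_Ioi.concaveOn.le_map_sum hw hw1
      (fun j _ => (hz j : z j ∈ Set.Ioi (0 : ℝ)))
    simp only [smul_eq_mul] at h2
    have h3 : (∑ j, B i j * z j) / n = rav B i * ∑ j, B i j / (n * rav B i) * z j := by
      rw [Finset.mul_sum, Finset.sum_div]
      apply Finset.sum_congr rfl
      intro j _
      have := (hr0 i).ne'
      field_simp
    have h4 : 0 < ∑ j, B i j / (n * rav B i) * z j :=
      Finset.sum_pos (fun j _ => mul_pos (div_pos (hBp i j) (mul_pos hn0 (hr0 i))) (hz j))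
        ⟨i, Finset.mem_univ _⟩
    rw [h3, Real.log_mul (hr0 i).ne' h4.ne']
    linarith
  have h2 : ∑ i, (Real.log (rav B i) + ∑ j, B i j / (n * rav B i) * Real.log (z j)) ≤
      ∑ i, Real.log ((∑ j, B i j * z j) / n) := Finset.sum_le_sum fun i _ => h1 i
  refine le_trans ?_ h2
  rw [Finset.sum_add_distrib, Finset.sum_comm]
  -- rows
  have h3 : - (n * (er B / l)) ≤ ∑ i, Real.log (rav B i) := by
    have h4 : ∀ i, - (|rav B i - 1| / l) ≤ Real.log (rav B i) := by
      intro i
      have h5 := log_sub_le hl hl1 (hr i)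
      rw [Real.log_one, abs_sub_comm] at h5
      linarith
    calc - (n * (er B / l)) = ∑ i, - (|rav B i - 1| / l) := by
          rw [Finset.sum_neg_distrib, ← Finset.sum_div, er]; field_simp
      _ ≤ _ := Finset.sum_le_sum fun i _ => h4 i
  -- columns
  have h5 : ∀ j, |∑ i, B i j / (n * rav B i) - 1| ≤ |cav B j - 1| + L * er B / l := by
    intro j
    have e1 : ∑ i, B i j / (n * rav B i) - 1 =
        (cav B j - 1) + ∑ i, B i j * (1 - rav B i) / (n * rav B i) := by
      rw [cav, Finset.sum_div]
      have : ∀ i, B i j / (n * rav B i) = B i j / n + B i j * (1 - rav B i) / (n * rav B i) := by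
        intro i
        have := (hr0 i).ne'
        field_simp
        ring
      rw [Finset.sum_congr rfl fun i _ => this i, Finset.sum_add_distrib]
      ring
    rw [e1]
    refine (abs_add_le _ _).trans ?_
    gcongr
    refine (Finset.abs_sum_le_sum_abs _ _).trans ?_
    have h6 : ∀ i, |B i j * (1 - rav B i) / (n * rav B i)| ≤ L * |rav B i - 1| / (n * l) := by
      intro i
      rw [abs_div, abs_mul, abs_of_pos (hBp i j), abs_of_pos (mul_pos hn0 (hr0 i)), abs_sub_comm]
      apply div_le_div₀
      · exact mul_nonneg hL (abs_nonneg _)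
      · exact mul_le_mul_of_nonneg_right (hB' i j) (abs_nonneg _)
      · positivity
      · exact mul_le_mul_of_nonneg_left (hr i) hn0.le
    refine (Finset.sum_le_sum fun i _ => h6 i).trans (le_of_eq ?_)
    rw [← Finset.sum_div, ← Finset.mul_sum, er]
    field_simp
  have h7 : ∑ j, Real.log (z j) - n * (M * (ec B + L * er B / l)) ≤
      ∑ j, ∑ i, B i j / (n * rav B i) * Real.log (z j) := by
    have h8 : ∀ j, Real.log (z j) - (|cav B j - 1| + L * er B / l) * M ≤
        ∑ i, B i j / (n * rav B i) * Real.log (z j) := by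
      intro j
      rw [← Finset.sum_mul]
      have h9 : -((|cav B j - 1| + L * er B / l) * M) ≤
          (∑ i, B i j / (n * rav B i) - 1) * Real.log (z j) := by
        refine (abs_le.1 ?_).1
        rw [abs_mul]
        exact mul_le_mul (h5 j) (hzM j) (abs_nonneg _) ((abs_nonneg _).trans (h5 j))
      linarith
    calc ∑ j, Real.log (z j) - n * (M * (ec B + L * er B / l)) =
        ∑ j, (Real.log (z j) - (|cav B j - 1| + L * er B / l) * M) := by
          rw [Finset.sum_sub_distrib, ← Finset.sum_mul, Finset.sum_add_distrib, ec]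
          simp only [Finset.sum_const, Finset.card_univ, Fintype.card_fin, nsmul_eq_mul]
          field_simp
      _ ≤ _ := Finset.sum_le_sum fun j _ => h8 j
  have h10 : (n : ℝ) * (er B / l + M * (ec B + L * er B / l)) =
    n * (er B / l) + n * (M * (ec B + L * er B / l)) := by ring
  rw [h10]
  linarith

/-- the inequality for arbitrary positive vectors -/
lemma cap_bound {B : Matrix (Fin n) (Fin n) ℝ} (hn : 0 < n) {l L M d U : ℝ} (hl : 0 < l) (hl1 : l ≤ 1)
    (hB : ∀ i j, l ≤ B i j) (hB' : ∀ i j, B i j ≤ L) (hd : 0 < d) (hd1 : d ≤ 1)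
    (hU : 1 ≤ U) (hdM : - Real.log d ≤ M) (hUM : Real.log U ≤ M) (x : Fin n → ℝ)
    (hx : ∀ j, 0 < x j) :
    ∑ j, Real.log (x j) - n * (L * d / l + 1 / U + (er B / l + M * (ec B + L * er B / l))) ≤
      ∑ i, Real.log ((∑ j, B i j * x j) / n) := by
  have hn0 : (0 : ℝ) < n := by exact_mod_cast hn
  have hBp : ∀ i j, 0 < B i j := fun i j => hl.trans_le (hB i j)
  have i0 : Fin n := ⟨0, hn⟩
  have hL : 0 < L := (hBp i0 i0).trans_le (hB' i0 i0)
  set s : ℝ := (∑ j, x j) / n with hs
  have hs0 : 0 < s := div_pos (Finset.sum_pos (fun j _ => hx j) ⟨i0, Finset.mem_univ _⟩) hn0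
  have hsn : ∑ j, x j = n * s := by rw [hs]; field_simp
  set z : Fin n → ℝ := fun j => min (max (x j / s) d) U with hz
  have hU0 : 0 < U := by linarith
  have hz0 : ∀ j, 0 < z j := fun j => lt_min (lt_of_lt_of_le hd (le_max_right _ _)) hU0
  have hzd : ∀ j, d ≤ z j := fun j => le_min (le_max_right _ _) (hd1.trans hU)
  have hzU : ∀ j, z j ≤ U := fun j => min_le_right _ _
  have hzM : ∀ j, |Real.log (z j)| ≤ M := by
    intro j
    rw [abs_le]
    constructor
    · have := Real.log_le_log hd (hzd j)
      linarith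
    · exact (Real.log_le_log (hz0 j) (hzU j)).trans hUM
  have h1 := core hn hl hl1 hB hB' z hz0 hzM
  -- comparison of the logarithms
  have h2 : ∑ j, Real.log (x j) - n * Real.log s - n * (1 / U) ≤ ∑ j, Real.log (z j) := by
    have h3 : ∀ j, Real.log (x j) - Real.log s - x j / (s * U) ≤ Real.log (z j) := by
      intro j
      rw [← Real.log_div (hx j).ne' hs0.ne']
      have hxs : 0 < x j / s := div_pos (hx j) hs0
      rcases le_total (x j / s) U with h | h
      · have h4 : x j / s ≤ z j := le_min (le_max_left _ _) h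
        have h5 := Real.log_le_log hxs h4
        have h6 : 0 ≤ x j / (s * U) := (div_pos (hx j) (mul_pos hs0 hU0)).le
        linarith
      · have h4 : z j = U := min_eq_right (h.trans (le_max_left _ _))
        rw [h4]
        have h5 := Real.log_le_sub_one_of_pos (div_pos hxs hU0)
        rw [Real.log_div hxs.ne' hU0.ne'] at h5
        have h6 : x j / s / U = x j / (s * U) := by rw [div_div]
        rw [h6] at h5
        linarith
    calc ∑ j, Real.log (x j) - n * Real.log s - n * (1 / U) =
        ∑ j, (Real.log (x j) - Real.log s - x j / (s * U)) := by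
          rw [Finset.sum_sub_distrib, Finset.sum_sub_distrib, ← Finset.sum_div, hsn]
          simp only [Finset.sum_const, Finset.card_univ, Fintype.card_fin, nsmul_eq_mul]
          field_simp
      _ ≤ _ := Finset.sum_le_sum fun j _ => h3 j
  -- comparison of the row sums
  have h4 : ∑ i, Real.log ((∑ j, B i j * z j) / n) ≤
      ∑ i, Real.log ((∑ j, B i j * x j) / n) - n * Real.log s + n * (L * d / l) := by
    have h5 : ∀ i, Real.log ((∑ j, B i j * z j) / n) ≤
        Real.log ((∑ j, B i j * x j) / n) - Real.log s + L * d / l := by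
      intro i
      have hpos : 0 < (∑ j, B i j * x j) / n :=
        div_pos (Finset.sum_pos (fun j _ => mul_pos (hBp i j) (hx j)) ⟨i0, Finset.mem_univ _⟩) hn0
      have hposz : 0 < (∑ j, B i j * z j) / n :=
        div_pos (Finset.sum_pos (fun j _ => mul_pos (hBp i j) (hz0 j)) ⟨i0, Finset.mem_univ _⟩) hn0
      have h6 : l * s ≤ (∑ j, B i j * x j) / n := by
        rw [le_div_iff₀ hn0]
        calc l * s * n = l * ∑ j, x j := by rw [hsn]; ring
          _ = ∑ j, l * x j := Finset.mul_sum _ _ _
          _ ≤ _ := Finset.sum_le_sum fun j _ => mul_le_mul_of_nonneg_right (hB i j) (hx j).le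
      have h7 : (∑ j, B i j * z j) / n ≤ ((∑ j, B i j * x j) / n) / s + L * d := by
        have h8 : ∀ j, B i j * z j ≤ B i j * x j / s + L * d := by
          intro j
          have h9 : z j ≤ x j / s + d := (min_le_left _ _).trans
            (max_le (by linarith) (by have := div_pos (hx j) hs0; linarith))
          calc B i j * z j ≤ B i j * (x j / s + d) := mul_le_mul_of_nonneg_left h9 (hBp i j).le
            _ = B i j * x j / s + B i j * d := by ring
            _ ≤ _ := by
              have := mul_le_mul_of_nonneg_right (hB' i j) hd.le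
              linarith
        calc (∑ j, B i j * z j) / n ≤ (∑ j, (B i j * x j / s + L * d)) / n :=
              div_le_div_of_nonneg_right (Finset.sum_le_sum fun j _ => h8 j) hn0.le
          _ = _ := by
              rw [Finset.sum_add_distrib, ← Finset.sum_div]
              simp only [Finset.sum_const, Finset.card_univ, Fintype.card_fin, nsmul_eq_mul]
              field_simp
      have h8 : ((∑ j, B i j * x j) / n) / s + L * d ≤
          ((∑ j, B i j * x j) / n) / s * (1 + L * d / l) := by
        have h9 : l ≤ ((∑ j, B i j * x j) / n) / s := by rwa [le_div_iff₀ hs0]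
        have h10 : L * d = l * (L * d / l) := by field_simp
        have h11 : 0 ≤ L * d / l := by positivity
        nlinarith [mul_le_mul_of_nonneg_right h9 h11]
      have h9 : 0 < ((∑ j, B i j * x j) / n) / s := div_pos hpos hs0
      have h10 : 0 < 1 + L * d / l := by positivity
      calc Real.log ((∑ j, B i j * z j) / n) ≤
          Real.log (((∑ j, B i j * x j) / n) / s * (1 + L * d / l)) :=
            Real.log_le_log hposz (h7.trans h8)
        _ = Real.log ((∑ j, B i j * x j) / n) - Real.log s + Real.log (1 + L * d / l) := by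
            rw [Real.log_mul h9.ne' h10.ne', Real.log_div hpos.ne' hs0.ne']
        _ ≤ _ := by
            have := Real.log_le_sub_one_of_pos h10
            linarith
    calc ∑ i, Real.log ((∑ j, B i j * z j) / n) ≤
        ∑ i, (Real.log ((∑ j, B i j * x j) / n) - Real.log s + L * d / l) :=
          Finset.sum_le_sum fun i _ => h5 i
      _ = _ := by
          rw [Finset.sum_add_distrib, Finset.sum_sub_distrib]
          simp only [Finset.sum_const, Finset.card_univ, Fintype.card_fin, nsmul_eq_mul]
  have h5 : (n : ℝ) * (L * d / l + 1 / U + (er B / l + M * (ec B + L * er B / l))) =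
    n * (L * d / l) + n * (1 / U) + n * (er B / l + M * (ec B + L * er B / l)) := by ring
  rw [h5]
  linarith

/-- lower bound for the permanent -/
theorem per_lower {B : Matrix (Fin n) (Fin n) ℝ} (hn : 0 < n) {l L M d U : ℝ} (hl : 0 < l)
    (hl1 : l ≤ 1) (hB : ∀ i j, l ≤ B i j) (hB' : ∀ i j, B i j ≤ L) (hd : 0 < d)
    (hd1 : d ≤ 1) (hU : 1 ≤ U) (hdM : - Real.log d ≤ M) (hUM : Real.log U ≤ M) :
    Real.exp (- (n * (L * d / l + 1 / U + (er B / l + M * (ec B + L * er B / l))))) *
      n.factorial ≤ B.permanent := by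
  have hn0 : (0 : ℝ) < n := by exact_mod_cast hn
  have hBp : ∀ i j, 0 < B i j := fun i j => hl.trans_le (hB i j)
  have i0 : Fin n := ⟨0, hn⟩
  set E : ℝ := n * (L * d / l + 1 / U + (er B / l + M * (ec B + L * er B / l))) with hE
  have h1 := cap_lower hBp (c := Real.exp (-E) * (n : ℝ) ^ n) (by positivity) (by
    intro x hx
    have h2 := cap_bound hn hl hl1 hB hB' hd hd1 hU hdM hUM x hx
    rw [← hE] at h2
    have h3 : 0 < ∏ i, x i := Finset.prod_pos fun i _ => hx i
    have hpos : ∀ i, 0 < ∑ j, B i j * x j := fun i =>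
      Finset.sum_pos (fun j _ => mul_pos (hBp i j) (hx j)) ⟨i0, Finset.mem_univ _⟩
    have h4 : 0 < ∏ i, ∑ j, B i j * x j := Finset.prod_pos fun i _ => hpos i
    rw [← Real.log_le_log_iff (by positivity) h4, Real.log_mul (by positivity) h3.ne',
      Real.log_mul (Real.exp_pos _).ne' (by positivity), Real.log_exp, Real.log_pow,
      Real.log_prod (fun i _ => (hx i).ne'), Real.log_prod (fun i _ => (hpos i).ne')]
    have h5 : ∑ i, Real.log ((∑ j, B i j * x j) / n) =
        ∑ i, Real.log (∑ j, B i j * x j) - n * Real.log n := by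
      rw [Finset.sum_congr rfl fun i _ => Real.log_div (hpos i).ne' hn0.ne',
        Finset.sum_sub_distrib]
      simp only [Finset.sum_const, Finset.card_univ, Fintype.card_fin, nsmul_eq_mul]
    rw [h5] at h2
    linarith)
  refine le_trans (le_of_eq ?_) h1
  field_simp

end Pool.Agent.N256.LLP
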