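import Mathlib
import Pool.Agent.N256.LLP.Defs
import Pool.Agent.N256.LLP.Erg

set_option autoImplicit false
set_option linter.unusedSectionVars false

/-!
# Almost optimal scaling functions
-/

namespace Pool.Agent.N256.LLP

open MeasureTheory Filter Topology Set ProbabilityTheory
open scoped ENNReal

variable {Ω : Type*} {m : MeasurableSpace Ω} [mΩ : MeasurableSpace Ω] {P : Measure Ω} {T₁ T₂ : Ω → Ω} {f : Ω → ℝ}

/-- Jensen's inequality for the logarithm -/
lemma jensen_log [IsProbabilityMeasure P] {a : Ω → ℝ} (ha : ∀ x, 0 < a x) (hi : Integrable a P)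
    (hl : Integrable (fun x => Real.log (a x)) P) : ∫ x, Real.log (a x) ∂P ≤ Real.log (∫ x, a x ∂P) := by
  have hc : 0 < ∫ x, a x ∂P := by
    rw [integral_pos_iff_support_of_nonneg (fun x => (ha x).le) hi]
    have : Function.support a = univ := by
      ext x; simp [(ha x).ne']
    rw [this]; simp
  set c := ∫ x, a x ∂P with hcdef
  have h1 : ∀ x, Real.log (a x) ≤ a x / c - 1 + Real.log c := by
    intro x
    have := Real.log_le_sub_one_of_pos (div_pos (ha x) hc)
    rw [Real.log_div (ha x).ne' hc.ne'] at this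
    linarith
  have h2 : ∫ x, Real.log (a x) ∂P ≤ ∫ x, (a x / c - 1 + Real.log c) ∂P :=
    integral_mono hl (((hi.div_const c).sub (integrable_const _)).add (integrable_const _)) h1
  refine h2.trans (le_of_eq ?_)
  have h3 : Integrable (fun x => a x / c - 1) P := (hi.div_const c).sub (integrable_const _)
  have h4 : Integrable (fun x => a x / c) P := hi.div_const c
  rw [integral_add h3 (integrable_const _), integral_sub h4 (integrable_const _), integral_div,
    ← hcdef, div_self hc.ne']
  simp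

lemma bdd_int [IsFiniteMeasure P] {g : Ω → ℝ} (hg : Measurable g) {K : ℝ} (h : ∀ x, |g x| ≤ K) :
    Integrable g P :=
  Integrable.mono' (integrable_const K) hg.aestronglyMeasurable (Eventually.of_forall fun x => h x)

lemma log_meas {g : Ω → ℝ} (hg : Measurable g) : Measurable fun x => Real.log (g x) :=
  Real.measurable_log.comp hg

/-- a version of the conditional expectation with values in `[l, L]` -/
lemma clamp_condExp {φ : Ω → ℝ} {l L : ℝ} (hlL : l ≤ L) (h1 : ∀ᵐ x ∂P, l ≤ (P[φ | m]) x)
    (h2 : ∀ᵐ x ∂P, (P[φ | m]) x ≤ L) :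
    ∃ e : Ω → ℝ, Measurable[m] e ∧ (∀ x, l ≤ e x) ∧ (∀ x, e x ≤ L) ∧ P[φ | m] =ᵐ[P] e := by
  have hcm : Measurable[m] (P[φ | m]) := stronglyMeasurable_condExp.measurable
  refine ⟨fun x => max l (min L ((P[φ | m]) x)), ?_, fun x => le_max_left _ _,
    fun x => max_le hlL (min_le_left _ _), ?_⟩
  · exact Measurable.max measurable_const (Measurable.min measurable_const hcm)
  · filter_upwards [h1, h2] with x hx1 hx2
    rw [min_eq_right hx2, max_eq_right hx1]

/-- pull out -/
lemma integral_pull [IsProbabilityMeasure P] (hm : m ≤ mΩ) {u φ e : Ω → ℝ}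
    (hu : Measurable[m] u) (hφ : Integrable φ P) (huφ : Integrable (fun x => u x * φ x) P)
    (he : P[φ | m] =ᵐ[P] e) :
    ∫ x, u x * φ x ∂P = ∫ x, u x * e x ∂P ∧ Integrable (fun x => u x * e x) P := by
  have h1 : P[u * φ | m] =ᵐ[P] u * P[φ | m] :=
    condExp_mul_of_stronglyMeasurable_left hu.stronglyMeasurable huφ hφ
  have h2 : P[u * φ | m] =ᵐ[P] fun x => u x * e x := by
    filter_upwards [h1, he] with x hx1 hx2
    rw [hx1, Pi.mul_apply, hx2]
  constructor
  · rw [← integral_congr_ae h2, integral_condExp hm]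
    rfl
  · exact (integrable_condExp (m := m) (f := u * φ) (μ := P)).congr h2

/-- the improvement step -/
lemma improve [IsProbabilityMeasure P] (hm : m ≤ mΩ) {u φ e : Ω → ℝ}
    (hu : Measurable[m] u) (hu0 : ∀ x, 0 < u x) (hul : Integrable (fun x => Real.log (u x)) P)
    (hφ : Integrable φ P) (huφ : Integrable (fun x => u x * φ x) P)
    (he : P[φ | m] =ᵐ[P] e) (he0 : ∀ x, 0 < e x) (hel : Integrable (fun x => Real.log (e x)) P) :
    gm P u * gm P e ≤ ∫ x, u x * φ x ∂P := by
  obtain ⟨h1, h2⟩ := integral_pull hm hu hφ huφ he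
  have h3 : ∀ x, Real.log (u x * e x) = Real.log (u x) + Real.log (e x) := fun x =>
    Real.log_mul (hu0 x).ne' (he0 x).ne'
  have h4 := jensen_log (a := fun x => u x * e x) (fun x => mul_pos (hu0 x) (he0 x)) h2 (by
    simp only [h3]; exact hul.add hel)
  simp only [h3] at h4
  rw [integral_add hul hel] at h4
  rw [h1]
  have hpos : 0 < ∫ x, u x * e x ∂P := by
    rw [integral_pos_iff_support_of_nonneg (fun x => (mul_pos (hu0 x) (he0 x)).le) h2]
    have : Function.support (fun x => u x * e x) = univ := by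
      ext x; simp [(hu0 x).ne', (he0 x).ne']
    rw [this]; simp
  rw [gm, gm, ← Real.exp_add]
  exact (Real.le_log_iff_exp_le hpos).1 h4

lemma gm_pos (φ : Ω → ℝ) : 0 < gm P φ := Real.exp_pos _

lemma gm_inv {e : Ω → ℝ} : gm P (fun x => (e x)⁻¹) = (gm P e)⁻¹ := by
  unfold gm
  simp only [Real.log_inv]
  rw [integral_neg, Real.exp_neg]

lemma sqrt_ineq {w : ℝ} (hw : 0 < w) : (Real.sqrt w - 1) ^ 2 ≤ w - 1 - Real.log w := by
  have h1 : 0 < Real.sqrt w := Real.sqrt_pos.2 hw
  have h2 : Real.log w = 2 * Real.log (Real.sqrt w) := by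
    rw [Real.log_sqrt hw.le]; ring
  have h3 := Real.log_le_sub_one_of_pos h1
  have h4 := Real.sq_sqrt hw.le
  rw [h2]
  nlinarith

end Pool.Agent.N256.LLP
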