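import Mathlib
import Pool.Agent.N256.LLP.Opt

set_option autoImplicit false
set_option linter.unusedSectionVars false

/-!
# Almost optimal scaling functions, second part
-/

namespace Pool.Agent.N256.LLP

open MeasureTheory Filter Topology Set ProbabilityTheory
open scoped ENNReal

section bounds

variable {Ω : Type*} {m₁ m₂ : MeasurableSpace Ω} [mΩ : MeasurableSpace Ω] {P : Measure Ω}

lemma cond_bounds [IsProbabilityMeasure P] (h₁ : m₁ ≤ mΩ) (h₂ : m₂ ≤ mΩ) (hind : Indep m₂ m₁ P)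
    {a f : Ω → ℝ} (ha : Measurable[m₂] a) (ha0 : ∀ x, 0 < a x) (hai : Integrable a P)
    (hf : Measurable f) {l L : ℝ} (hl : ∀ x, l ≤ f x) (hL : ∀ x, f x ≤ L) :
    Integrable (fun x => f x * a x) P ∧
    (∀ᵐ x ∂P, l * ∫ y, a y ∂P ≤ (P[fun x => f x * a x | m₁]) x) ∧
    (∀ᵐ x ∂P, (P[fun x => f x * a x | m₁]) x ≤ L * ∫ y, a y ∂P) := by
  have hfa : Integrable (fun x => f x * a x) P := by
    refine hai.bdd_mul (c := max |l| |L|) hf.aestronglyMeasurable (Eventually.of_forall fun x => ?_)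
    rw [Real.norm_eq_abs]
    exact abs_le_max_abs_abs (hl x) (hL x)
  have hc : ∀ c : ℝ, P[fun x => c * a x | m₁] =ᵐ[P] fun _ => c * ∫ y, a y ∂P := by
    intro c
    have h3 := condExp_indep_eq (μ := P) (f := fun x => c * a x) h₂ h₁
      (ha.const_mul c).stronglyMeasurable hind
    filter_upwards [h3] with x hx
    rw [hx, integral_const_mul]
  refine ⟨hfa, ?_, ?_⟩
  · have h3 := condExp_mono (m := m₁) (hai.const_mul l) hfa
      (Eventually.of_forall fun x => mul_le_mul_of_nonneg_right (hl x) (ha0 x).le)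
    filter_upwards [h3, hc l] with x hx1 hx2
    rw [← hx2]; exact hx1
  · have h3 := condExp_mono (m := m₁) hfa (hai.const_mul L)
      (Eventually.of_forall fun x => mul_le_mul_of_nonneg_right (hL x) (ha0 x).le)
    filter_upwards [h3, hc L] with x hx1 hx2
    rw [← hx2]; exact hx1

lemma integrable_of_prod [IsProbabilityMeasure P] (h₁ : m₁ ≤ mΩ) (h₂ : m₂ ≤ mΩ)
    (hind : Indep m₁ m₂ P) {a b f : Ω → ℝ} (ha : Measurable[m₁] a) (hb : Measurable[m₂] b)
    (ha0 : ∀ x, 0 < a x) (hb0 : ∀ x, 0 < b x) {l : ℝ} (hl0 : 0 < l) (hl : ∀ x, l ≤ f x)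
    (hi : ∫⁻ x, ENNReal.ofReal (a x * f x * b x) ∂P < ∞) : Integrable b P := by
  have h3 : ∫⁻ x, ENNReal.ofReal (a x) * ENNReal.ofReal (b x) ∂P =
      (∫⁻ x, ENNReal.ofReal (a x) ∂P) * ∫⁻ x, ENNReal.ofReal (b x) ∂P :=
    lintegral_mul_eq_lintegral_mul_lintegral_of_independent_measurableSpace h₁ h₂ hind
      (ENNReal.measurable_ofReal.comp ha) (ENNReal.measurable_ofReal.comp hb)
  have h4 : ∫⁻ x, ENNReal.ofReal (a x) * ENNReal.ofReal (b x) ∂P < ∞ := by
    have h5 : ∀ x, ENNReal.ofReal (a x) * ENNReal.ofReal (b x) ≤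
        ENNReal.ofReal l⁻¹ * ENNReal.ofReal (a x * f x * b x) := by
      intro x
      rw [← ENNReal.ofReal_mul (ha0 x).le, ← ENNReal.ofReal_mul (by positivity)]
      apply ENNReal.ofReal_le_ofReal
      have h6 : a x * b x * l ≤ a x * f x * b x := by
        have := mul_le_mul_of_nonneg_left (hl x) (mul_pos (ha0 x) (hb0 x)).le
        nlinarith
      rw [inv_mul_eq_div, le_div_iff₀ hl0]
      exact h6
    refine (lintegral_mono h5).trans_lt ?_
    rw [lintegral_const_mul' _ _ ENNReal.ofReal_ne_top]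
    exact ENNReal.mul_lt_top ENNReal.ofReal_lt_top hi
  rw [h3] at h4
  have h5 : ∫⁻ x, ENNReal.ofReal (a x) ∂P ≠ 0 := by
    intro h6
    rw [lintegral_eq_zero_iff (ha.mono h₁ le_rfl).ennreal_ofReal] at h6
    have h7 : ∀ᵐ x ∂P, False := by
      filter_upwards [h6] with x hx
      have : ENNReal.ofReal (a x) = 0 := hx
      rw [ENNReal.ofReal_eq_zero] at this
      exact absurd this (not_le.2 (ha0 x))
    simp at h7
    exact (IsProbabilityMeasure.ne_zero P) h7
  have h6 : ∫⁻ x, ENNReal.ofReal (b x) ∂P < ∞ := by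
    by_contra h7
    rw [not_lt, top_le_iff] at h7
    rw [h7, ENNReal.mul_top h5] at h4
    exact lt_irrefl _ h4
  refine ⟨(hb.mono h₂ le_rfl).aestronglyMeasurable, ?_⟩
  rw [hasFiniteIntegral_iff_ofReal (Eventually.of_forall fun x => (hb0 x).le)]
  exact h6

end bounds

section main

variable {Ω : Type*} [mΩ : MeasurableSpace Ω] {P : Measure Ω} {T₁ T₂ : Ω → Ω} {f : Ω → ℝ}

lemma smean_le {g₁ g₂ : Ω → ℝ} (h₁ : g₁ ∈ Scal P T₁) (h₂ : g₂ ∈ Scal P T₂) (hf : ∀ x, 0 ≤ f x)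
    (hi : Integrable (fun x => g₁ x * f x * g₂ x) P) :
    smean P T₁ T₂ f ≤ ENNReal.ofReal ((∫ x, g₁ x * f x * g₂ x ∂P) / (gm P g₁ * gm P g₂)) := by
  refine (iInf₂_le g₁ h₁).trans ((iInf₂_le g₂ h₂).trans (le_of_eq ?_))
  rw [ENNReal.ofReal_div_of_pos (mul_pos (gm_pos _) (gm_pos _)),
    ofReal_integral_eq_lintegral_ofReal hi (Eventually.of_forall fun x =>
      mul_nonneg (mul_nonneg (h₁.2.1 x).le (hf x)) (h₂.2.1 x).le)]

lemma val_ge [IsProbabilityMeasure P] {C : ℝ} (hfm : Measurable f) (hf : ∀ x, Real.exp (-C) ≤ f x)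
    (hf' : ∀ x, f x ≤ Real.exp C) {g₁ g₂ : Ω → ℝ} (h₁ : g₁ ∈ Scal P T₁) (h₂ : g₂ ∈ Scal P T₂) :
    ENNReal.ofReal (Real.exp (-C)) ≤ (∫⁻ ω, ENNReal.ofReal (g₁ ω * f ω * g₂ ω) ∂P) /
      ENNReal.ofReal (gm P g₁ * gm P g₂) := by
  have hf0 : ∀ x, 0 < f x := fun x => (Real.exp_pos _).trans_le (hf x)
  have hm1 : Measurable g₁ := h₁.1.mono (MeasurableSpace.invariants_le _) le_rfl
  have hm2 : Measurable g₂ := h₂.1.mono (MeasurableSpace.invariants_le _) le_rfl
  have hpos : ∀ x, 0 < g₁ x * f x * g₂ x := fun x => mul_pos (mul_pos (h₁.2.1 x) (hf0 x)) (h₂.2.1 x)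
  have hfl : ∀ x, |Real.log (f x)| ≤ C := by
    intro x
    rw [abs_le]
    constructor
    · have := Real.log_le_log (Real.exp_pos _) (hf x)
      rwa [Real.log_exp] at this
    · have := Real.log_le_log (hf0 x) (hf' x)
      rwa [Real.log_exp] at this
  have hfli : Integrable (fun x => Real.log (f x)) P := bdd_int (log_meas hfm) hfl
  by_cases hi : ∫⁻ ω, ENNReal.ofReal (g₁ ω * f ω * g₂ ω) ∂P < ∞
  swap
  · rw [not_lt, top_le_iff] at hi
    rw [hi, ENNReal.top_div_of_ne_top ENNReal.ofReal_ne_top]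
    exact le_top
  have hint : Integrable (fun x => g₁ x * f x * g₂ x) P := by
    refine ⟨((hm1.mul hfm).mul hm2).aestronglyMeasurable, ?_⟩
    rw [hasFiniteIntegral_iff_ofReal (Eventually.of_forall fun x => (hpos x).le)]
    exact hi
  rw [← ofReal_integral_eq_lintegral_ofReal hint (Eventually.of_forall fun x => (hpos x).le),
    ← ENNReal.ofReal_div_of_pos (mul_pos (gm_pos _) (gm_pos _))]
  apply ENNReal.ofReal_le_ofReal
  rw [le_div_iff₀ (mul_pos (gm_pos _) (gm_pos _))]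
  have hlog : ∀ x, Real.log (g₁ x * f x * g₂ x) =
      Real.log (g₁ x) + Real.log (f x) + Real.log (g₂ x) := by
    intro x
    rw [Real.log_mul (mul_pos (h₁.2.1 x) (hf0 x)).ne' (h₂.2.1 x).ne',
      Real.log_mul (h₁.2.1 x).ne' (hf0 x).ne']
  have h3 := jensen_log hpos hint (by simp only [hlog]; exact (h₁.2.2.add hfli).add h₂.2.2)
  simp only [hlog] at h3
  have h5 : Integrable (fun x => Real.log (g₁ x) + Real.log (f x)) P := h₁.2.2.add hfli
  rw [integral_add h5 h₂.2.2, integral_add h₁.2.2 hfli] at h3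
  have h4 : -C ≤ ∫ x, Real.log (f x) ∂P := by
    have := integral_mono (μ := P) (integrable_const (-C)) hfli fun x => (abs_le.1 (hfl x)).1
    simpa using this
  have hc : 0 < ∫ x, g₁ x * f x * g₂ x ∂P := by
    rw [integral_pos_iff_support_of_nonneg (fun x => (hpos x).le) hint]
    have : Function.support (fun x => g₁ x * f x * g₂ x) = univ := by
      ext x
      simp only [Function.mem_support, mem_univ, iff_true]
      exact (hpos x).ne'
    rw [this]; simp
  rw [gm, gm, ← Real.exp_add, ← Real.exp_add]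
  rw [← Real.le_log_iff_exp_le hc]
  linarith

/-- Almost optimal scaling functions. -/
theorem exists_opt [IsProbabilityMeasure P]
    (hT₂ : MeasurePreserving T₂ P P) (hc : Function.Commute T₁ T₂)
    (herg : ∀ s, MeasurableSet s → T₁ ⁻¹' s = s → T₂ ⁻¹' s = s → P s = 0 ∨ P s = 1)
    {C : ℝ} (hC : 0 ≤ C) (hfm : Measurable f) (hf : ∀ x, Real.exp (-C) ≤ f x)
    (hf' : ∀ x, f x ≤ Real.exp C) :
    ∃ s : ℝ, 0 < s ∧ smean P T₁ T₂ f = ENNReal.ofReal s ∧ ∀ ε : ℝ, 0 < ε →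
      ∃ b₁ b₂ w : Ω → ℝ, Measurable[MeasurableSpace.invariants T₁] b₁ ∧
        Measurable[MeasurableSpace.invariants T₂] b₂ ∧
        Measurable[MeasurableSpace.invariants T₁] w ∧ (∀ x, 0 < b₁ x) ∧ (∀ x, 0 < b₂ x) ∧
        (∃ K, ∀ x, |Real.log (b₁ x)| ≤ K) ∧ (∃ K, ∀ x, |Real.log (b₂ x)| ≤ K) ∧
        (∀ x, Real.exp (-(4 * C)) ≤ b₁ x * f x * b₂ x) ∧ (∀ x, b₁ x * f x * b₂ x ≤ Real.exp (4 * C)) ∧
        P[fun x => b₁ x * f x * b₂ x | MeasurableSpace.invariants T₂] =ᵐ[P] (fun _ => (1 : ℝ)) ∧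
        P[fun x => b₁ x * f x * b₂ x | MeasurableSpace.invariants T₁] =ᵐ[P] w ∧
        (∀ x, |w x| ≤ Real.exp (4 * C)) ∧ ∫ x, |w x - 1| ∂P ≤ ε ∧
        s ≤ (gm P b₁ * gm P b₂)⁻¹ ∧ (gm P b₁ * gm P b₂)⁻¹ ≤ s * Real.exp ε := by
  classical
  have hf0 : ∀ x, 0 < f x := fun x => (Real.exp_pos _).trans_le (hf x)
  have hle₁ : MeasurableSpace.invariants T₁ ≤ mΩ := MeasurableSpace.invariants_le T₁
  have hle₂ : MeasurableSpace.invariants T₂ ≤ mΩ := MeasurableSpace.invariants_le T₂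
  have hind : Indep (MeasurableSpace.invariants T₁) (MeasurableSpace.invariants T₂) P :=
    indep_inv hT₂ hc herg
  -- the scaling mean is positive and finite
  have hlow : ENNReal.ofReal (Real.exp (-C)) ≤ smean P T₁ T₂ f :=
    le_iInf₂ fun g₁ h₁ => le_iInf₂ fun g₂ h₂ => val_ge hfm hf hf' h₁ h₂
  have hone : ∀ T : Ω → Ω, (fun _ : Ω => (1 : ℝ)) ∈ Scal P T := fun T =>
    ⟨measurable_const, fun _ => one_pos, by simp⟩
  have hfb : ∀ x, |f x| ≤ Real.exp C := fun x => by rw [abs_of_pos (hf0 x)]; exact hf' x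
  have hfin : smean P T₁ T₂ f < ∞ := by
    refine (smean_le (hone T₁) (hone T₂) (fun x => (hf0 x).le) ?_).trans_lt ENNReal.ofReal_lt_top
    simpa using bdd_int hfm hfb
  set s : ℝ := (smean P T₁ T₂ f).toReal with hs
  have hsE : smean P T₁ T₂ f = ENNReal.ofReal s := (ENNReal.ofReal_toReal hfin.ne).symm
  have hs0 : 0 < s := by
    have h1 : 0 < smean P T₁ T₂ f :=
      (ENNReal.ofReal_pos.2 (Real.exp_pos _)).trans_le hlow
    exact ENNReal.toReal_pos h1.ne' hfin.ne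
  refine ⟨s, hs0, hsE, fun ε hε => ?_⟩
  set R : ℝ := Real.exp (2 * C) + 1 with hR
  have hR1 : 1 ≤ R := by have := Real.exp_pos (2 * C); linarith
  set δ : ℝ := min ε ((ε / R) ^ 2) with hδ
  have hδ0 : 0 < δ := lt_min hε (by positivity)
  have hδε : δ ≤ ε := min_le_left _ _
  have hδR : R * Real.sqrt δ ≤ ε := by
    have h1 : Real.sqrt δ ≤ ε / R := by
      rw [Real.sqrt_le_left (by positivity)]
      exact min_le_right _ _
    calc R * Real.sqrt δ ≤ R * (ε / R) := mul_le_mul_of_nonneg_left h1 (by linarith)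
      _ = ε := by field_simp
  -- an almost optimal pair
  have hlt : smean P T₁ T₂ f < ENNReal.ofReal (s * Real.exp δ) := by
    rw [hsE]
    refine (ENNReal.ofReal_lt_ofReal_iff (by positivity)).2 ?_
    have := Real.add_one_le_exp δ
    nlinarith
  obtain ⟨a₁, ha₁, hlt⟩ : ∃ a₁ ∈ Scal P T₁, (⨅ g₂ ∈ Scal P T₂,
      (∫⁻ ω, ENNReal.ofReal (a₁ ω * f ω * g₂ ω) ∂P) / ENNReal.ofReal (gm P a₁ * gm P g₂)) <
      ENNReal.ofReal (s * Real.exp δ) := by
    by_contra hcon
    push Not at hcon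
    exact absurd hlt (not_lt.2 (le_iInf₂ hcon))
  obtain ⟨a₂, ha₂, hlt⟩ : ∃ a₂ ∈ Scal P T₂, 
      (∫⁻ ω, ENNReal.ofReal (a₁ ω * f ω * a₂ ω) ∂P) / ENNReal.ofReal (gm P a₁ * gm P a₂) <
      ENNReal.ofReal (s * Real.exp δ) := by
    by_contra hcon
    push Not at hcon
    exact absurd hlt (not_lt.2 (le_iInf₂ hcon))
  have hfinI : ∫⁻ ω, ENNReal.ofReal (a₁ ω * f ω * a₂ ω) ∂P < ∞ := by
    by_contra hcon
    rw [not_lt, top_le_iff] at hcon
    rw [hcon, ENNReal.top_div_of_ne_top ENNReal.ofReal_ne_top] at hlt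
    exact absurd hlt (not_lt.2 le_top)
  have hposA : ∀ x, 0 < a₁ x * f x * a₂ x := fun x =>
    mul_pos (mul_pos (ha₁.2.1 x) (hf0 x)) (ha₂.2.1 x)
  have hm1 : Measurable a₁ := ha₁.1.mono hle₁ le_rfl
  have hm2 : Measurable a₂ := ha₂.1.mono hle₂ le_rfl
  have hintA : Integrable (fun x => a₁ x * f x * a₂ x) P := by
    refine ⟨((hm1.mul hfm).mul hm2).aestronglyMeasurable, ?_⟩
    rw [hasFiniteIntegral_iff_ofReal (Eventually.of_forall fun x => (hposA x).le)]
    exact hfinI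
  have hV : (∫ x, a₁ x * f x * a₂ x ∂P) / (gm P a₁ * gm P a₂) < s * Real.exp δ := by
    rw [← ofReal_integral_eq_lintegral_ofReal hintA (Eventually.of_forall fun x => (hposA x).le),
      ← ENNReal.ofReal_div_of_pos (mul_pos (gm_pos _) (gm_pos _))] at hlt
    exact (ENNReal.ofReal_lt_ofReal_iff (by positivity)).1 hlt
  have ha₂i : Integrable a₂ P := integrable_of_prod hle₁ hle₂ hind ha₁.1 ha₂.1 ha₁.2.1 ha₂.2.1
    (Real.exp_pos (-C)) hf hfinI
  have hintpos : ∀ {g : Ω → ℝ}, (∀ x, 0 < g x) → Integrable g P → 0 < ∫ x, g x ∂P := by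
    intro g hg hi
    rw [integral_pos_iff_support_of_nonneg (fun x => (hg x).le) hi]
    have : Function.support g = univ := by
      ext x; simp [(hg x).ne']
    rw [this]; simp
  set A : ℝ := ∫ x, a₂ x ∂P with hA
  have hA0 : 0 < A := hintpos ha₂.2.1 ha₂i
  have hCC : Real.exp (-C) ≤ Real.exp C := Real.exp_le_exp.2 (by linarith)
  -- first function
  obtain ⟨hfa, hb1, hb2⟩ := cond_bounds (P := P) hle₁ hle₂ hind.symm ha₂.1 ha₂.2.1 ha₂i hfm hf hf'
  rw [← hA] at hb1 hb2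
  obtain ⟨e₁, he₁m, he₁l, he₁L, he₁⟩ := clamp_condExp (mul_le_mul_of_nonneg_right hCC hA0.le) hb1 hb2
  have he₁0 : ∀ x, 0 < e₁ x := fun x => (mul_pos (Real.exp_pos _) hA0).trans_le (he₁l x)
  set b₁ : Ω → ℝ := fun x => (e₁ x)⁻¹ with hb₁
  have hb₁m : Measurable[MeasurableSpace.invariants T₁] b₁ := he₁m.inv
  have hb₁0 : ∀ x, 0 < b₁ x := fun x => inv_pos.2 (he₁0 x)
  have hb₁l : ∀ x, Real.exp (-C) * A⁻¹ ≤ b₁ x := by
    intro x
    have := inv_anti₀ (he₁0 x) (he₁L x)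
    rwa [mul_inv, ← Real.exp_neg] at this
  have hb₁L : ∀ x, b₁ x ≤ Real.exp C * A⁻¹ := by
    intro x
    have := inv_anti₀ (mul_pos (Real.exp_pos _) hA0) (he₁l x)
    rwa [mul_inv, ← Real.exp_neg, neg_neg] at this
  have hb₁M : Measurable b₁ := hb₁m.mono hle₁ le_rfl
  have hb₁i : Integrable b₁ P := bdd_int hb₁M (K := Real.exp C * A⁻¹) fun x => by
    rw [abs_of_pos (hb₁0 x)]; exact hb₁L x
  set B : ℝ := ∫ x, b₁ x ∂P with hB
  have hB0 : 0 < B := hintpos hb₁0 hb₁i
  have hBl : Real.exp (-C) * A⁻¹ ≤ B := by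
    have := integral_mono (μ := P) (integrable_const (Real.exp (-C) * A⁻¹)) hb₁i hb₁l
    simpa using this
  have hBL : B ≤ Real.exp C * A⁻¹ := by
    have := integral_mono (μ := P) hb₁i (integrable_const (Real.exp C * A⁻¹)) hb₁L
    simpa using this
  have hABl : Real.exp (-C) ≤ A * B := by
    have := mul_le_mul_of_nonneg_left hBl hA0.le
    calc Real.exp (-C) = A * (Real.exp (-C) * A⁻¹) := by field_simp
      _ ≤ _ := this
  have hABL : A * B ≤ Real.exp C := by
    have := mul_le_mul_of_nonneg_left hBL hA0.le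
    calc A * B ≤ A * (Real.exp C * A⁻¹) := this
      _ = _ := by field_simp
  -- second function
  obtain ⟨hfb1, hb3, hb4⟩ := cond_bounds (P := P) hle₂ hle₁ hind hb₁m hb₁0 hb₁i hfm hf hf'
  rw [← hB] at hb3 hb4
  obtain ⟨e₂, he₂m, he₂l, he₂L, he₂⟩ := clamp_condExp (mul_le_mul_of_nonneg_right hCC hB0.le) hb3 hb4
  have he₂0 : ∀ x, 0 < e₂ x := fun x => (mul_pos (Real.exp_pos _) hB0).trans_le (he₂l x)
  set b₂ : Ω → ℝ := fun x => (e₂ x)⁻¹ with hb₂
  have hb₂m : Measurable[MeasurableSpace.invariants T₂] b₂ := he₂m.inv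
  have hb₂0 : ∀ x, 0 < b₂ x := fun x => inv_pos.2 (he₂0 x)
  have hb₂M : Measurable b₂ := hb₂m.mono hle₂ le_rfl
  have hlogb : ∀ {e : Ω → ℝ} {l L : ℝ}, 0 < l → (∀ x, l ≤ e x) → (∀ x, e x ≤ L) →
      ∀ x, |Real.log (e x)| ≤ max |Real.log l| |Real.log L| := by
    intro e l L hl h1 h2 x
    exact abs_le_max_abs_abs (Real.log_le_log hl (h1 x)) (Real.log_le_log (hl.trans_le (h1 x)) (h2 x))
  have hlb₁ : ∀ x, |Real.log (b₁ x)| ≤ max |Real.log (Real.exp (-C) * A)| |Real.log (Real.exp C * A)| := by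
    intro x
    rw [hb₁]; simp only [Real.log_inv, abs_neg]
    exact hlogb (mul_pos (Real.exp_pos _) hA0) he₁l he₁L x
  have hlb₂ : ∀ x, |Real.log (b₂ x)| ≤ max |Real.log (Real.exp (-C) * B)| |Real.log (Real.exp C * B)| := by
    intro x
    rw [hb₂]; simp only [Real.log_inv, abs_neg]
    exact hlogb (mul_pos (Real.exp_pos _) hB0) he₂l he₂L x
  have hlb₁i : Integrable (fun x => Real.log (b₁ x)) P := bdd_int (log_meas hb₁M) hlb₁
  have hlb₂i : Integrable (fun x => Real.log (b₂ x)) P := bdd_int (log_meas hb₂M) hlb₂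
  have hle₁i : Integrable (fun x => Real.log (e₁ x)) P :=
    bdd_int (log_meas (he₁m.mono hle₁ le_rfl)) (hlogb (mul_pos (Real.exp_pos _) hA0) he₁l he₁L)
  have hle₂i : Integrable (fun x => Real.log (e₂ x)) P :=
    bdd_int (log_meas (he₂m.mono hle₂ le_rfl)) (hlogb (mul_pos (Real.exp_pos _) hB0) he₂l he₂L)
  -- bounds for the scaled function
  have hhl : ∀ x, Real.exp (-(4 * C)) ≤ b₁ x * f x * b₂ x := by
    intro x
    have h1 : e₁ x * e₂ x ≤ Real.exp (3 * C) := by
      calc e₁ x * e₂ x ≤ (Real.exp C * A) * (Real.exp C * B) :=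
            mul_le_mul (he₁L x) (he₂L x) (he₂0 x).le (by positivity)
        _ = Real.exp C * Real.exp C * (A * B) := by ring
        _ ≤ Real.exp C * Real.exp C * Real.exp C := mul_le_mul_of_nonneg_left hABL (by positivity)
        _ = Real.exp (3 * C) := by rw [← Real.exp_add, ← Real.exp_add]; ring_nf
    have h2 : b₁ x * f x * b₂ x = f x / (e₁ x * e₂ x) := by
      rw [hb₁, hb₂]; simp only
      have := (he₁0 x).ne'
      have := (he₂0 x).ne'
      field_simp
    rw [h2, le_div_iff₀ (mul_pos (he₁0 x) (he₂0 x))]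
    calc Real.exp (-(4 * C)) * (e₁ x * e₂ x) ≤ Real.exp (-(4 * C)) * Real.exp (3 * C) :=
          mul_le_mul_of_nonneg_left h1 (Real.exp_pos _).le
      _ = Real.exp (-C) := by rw [← Real.exp_add]; ring_nf
      _ ≤ f x := hf x
  have hhL : ∀ x, b₁ x * f x * b₂ x ≤ Real.exp (4 * C) := by
    intro x
    have h1 : Real.exp (-(3 * C)) ≤ e₁ x * e₂ x := by
      calc Real.exp (-(3 * C)) = Real.exp (-C) * Real.exp (-C) * Real.exp (-C) := by
            rw [← Real.exp_add, ← Real.exp_add]; ring_nf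
        _ ≤ Real.exp (-C) * Real.exp (-C) * (A * B) := mul_le_mul_of_nonneg_left hABl (by positivity)
        _ = (Real.exp (-C) * A) * (Real.exp (-C) * B) := by ring
        _ ≤ e₁ x * e₂ x := mul_le_mul (he₁l x) (he₂l x) (by positivity) (he₁0 x).le
    have h2 : b₁ x * f x * b₂ x = f x / (e₁ x * e₂ x) := by
      rw [hb₁, hb₂]; simp only
      have := (he₁0 x).ne'
      have := (he₂0 x).ne'
      field_simp
    rw [h2, div_le_iff₀ (mul_pos (he₁0 x) (he₂0 x))]
    calc f x ≤ Real.exp C := hf' x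
      _ = Real.exp (4 * C) * Real.exp (-(3 * C)) := by rw [← Real.exp_add]; ring_nf
      _ ≤ _ := mul_le_mul_of_nonneg_left h1 (Real.exp_pos _).le
  have hhM : Measurable fun x => b₁ x * f x * b₂ x := (hb₁M.mul hfm).mul hb₂M
  have hh0 : ∀ x, 0 < b₁ x * f x * b₂ x := fun x => (Real.exp_pos _).trans_le (hhl x)
  have hhi : Integrable (fun x => b₁ x * f x * b₂ x) P := bdd_int hhM (K := Real.exp (4 * C))
    fun x => by rw [abs_of_pos (hh0 x)]; exact hhL x
  -- conditional expectation given the second sigma-algebra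
  have hcond2 : P[fun x => b₁ x * f x * b₂ x | MeasurableSpace.invariants T₂] =ᵐ[P]
      (fun _ => (1 : ℝ)) := by
    have h1 : (fun x => b₁ x * f x * b₂ x) = b₂ * (fun x => f x * b₁ x) := by
      ext x; simp only [Pi.mul_apply]; ring
    rw [h1]
    have h2 : Integrable (b₂ * fun x => f x * b₁ x) P := by rw [← h1]; exact hhi
    have h3 := condExp_mul_of_stronglyMeasurable_left (μ := P) hb₂m.stronglyMeasurable h2 hfb1
    filter_upwards [h3, he₂] with x hx1 hx2
    rw [hx1, Pi.mul_apply, hx2]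
    exact inv_mul_cancel₀ (he₂0 x).ne'
  have hI1 : ∫ x, b₁ x * f x * b₂ x ∂P = 1 := by
    rw [← integral_condExp hle₂, integral_congr_ae hcond2]; simp
  -- conditional expectation given the first sigma-algebra
  have hw1 : ∀ᵐ x ∂P, Real.exp (-(4 * C)) ≤
      (P[fun x => b₁ x * f x * b₂ x | MeasurableSpace.invariants T₁]) x := by
    have h1 := condExp_mono (m := MeasurableSpace.invariants T₁) (μ := P)
      (integrable_const (Real.exp (-(4 * C)))) hhi (Eventually.of_forall hhl)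
    filter_upwards [h1] with x hx
    rwa [condExp_const hle₁] at hx
  have hw2 : ∀ᵐ x ∂P, (P[fun x => b₁ x * f x * b₂ x | MeasurableSpace.invariants T₁]) x ≤
      Real.exp (4 * C) := by
    have h1 := condExp_mono (m := MeasurableSpace.invariants T₁) (μ := P) hhi
      (integrable_const (Real.exp (4 * C))) (Eventually.of_forall hhL)
    filter_upwards [h1] with x hx
    rwa [condExp_const hle₁] at hx
  obtain ⟨w, hwm, hwl, hwL, hw⟩ := clamp_condExp
    (Real.exp_le_exp.2 (by linarith : -(4 * C) ≤ 4 * C)) hw1 hw2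
  have hw0 : ∀ x, 0 < w x := fun x => (Real.exp_pos _).trans_le (hwl x)
  have hwM : Measurable w := hwm.mono hle₁ le_rfl
  have hwi : Integrable w P := bdd_int hwM (K := Real.exp (4 * C)) fun x => by
    rw [abs_of_pos (hw0 x)]; exact hwL x
  have hwI : ∫ x, w x ∂P = 1 := by
    rw [← integral_congr_ae hw, integral_condExp hle₁, hI1]
  have hwli : Integrable (fun x => Real.log (w x)) P :=
    bdd_int (log_meas hwM) (hlogb (Real.exp_pos _) hwl hwL)
  -- comparison of the values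
  have hgm1 : gm P e₁ = (gm P b₁)⁻¹ := by rw [hb₁, gm_inv, inv_inv]
  have hgm2 : gm P e₂ = (gm P b₂)⁻¹ := by rw [hb₂, gm_inv, inv_inv]
  have hval1 : gm P a₁ * (gm P b₁)⁻¹ ≤ ∫ x, a₁ x * f x * a₂ x ∂P := by
    rw [← hgm1]
    have h1 := improve (P := P) hle₁ ha₁.1 ha₁.2.1 ha₁.2.2 hfa (by
      refine hintA.congr (Eventually.of_forall fun x => ?_)
      simp only; ring) he₁ he₁0 hle₁i
    refine h1.trans (le_of_eq (integral_congr_ae (Eventually.of_forall fun x => ?_)))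
    simp only; ring
  have hval2 : gm P a₂ * (gm P b₂)⁻¹ ≤ 1 := by
    rw [← hgm2]
    have h2 : Integrable (fun x => a₂ x * (f x * b₁ x)) P := by
      have h3 : Integrable (fun x => (f x * b₁ x) * a₂ x) P := by
        refine ha₂i.bdd_mul (c := Real.exp C * (Real.exp C * A⁻¹))
          (hfm.mul hb₁M).aestronglyMeasurable (Eventually.of_forall fun x => ?_)
        rw [Real.norm_eq_abs, abs_of_pos (mul_pos (hf0 x) (hb₁0 x))]
        exact mul_le_mul (hf' x) (hb₁L x) (hb₁0 x).le (Real.exp_pos _).le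
      refine h3.congr (Eventually.of_forall fun x => ?_)
      simp only; ring
    have h1 := improve (P := P) hle₂ ha₂.1 ha₂.2.1 ha₂.2.2 hfb1 h2 he₂ he₂0 hle₂i
    refine h1.trans (le_of_eq ?_)
    have h4 : Integrable (fun x => b₁ x * (f x * a₂ x)) P :=
      h2.congr (Eventually.of_forall fun x => by simp only; ring)
    have h5 := (integral_pull (P := P) hle₁ hb₁m hfa h4 he₁).1
    have h6 : ∫ x, a₂ x * (f x * b₁ x) ∂P = ∫ x, b₁ x * (f x * a₂ x) ∂P :=
      integral_congr_ae (Eventually.of_forall fun x => by simp only; ring)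
    rw [h6, h5]
    have h7 : ∀ x, b₁ x * e₁ x = 1 := fun x => inv_mul_cancel₀ (he₁0 x).ne'
    simp [h7]
  have hVb : (gm P b₁ * gm P b₂)⁻¹ ≤ s * Real.exp δ := by
    refine le_trans ?_ hV.le
    have g1 := gm_pos (P := P) a₁
    have g2 := gm_pos (P := P) a₂
    have g3 := gm_pos (P := P) b₁
    have g4 := gm_pos (P := P) b₂
    rw [le_div_iff₀ (mul_pos g1 g2)]
    calc (gm P b₁ * gm P b₂)⁻¹ * (gm P a₁ * gm P a₂) =
        (gm P a₁ * (gm P b₁)⁻¹) * (gm P a₂ * (gm P b₂)⁻¹) := by rw [mul_inv]; ring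
      _ ≤ (gm P a₁ * (gm P b₁)⁻¹) * 1 := mul_le_mul_of_nonneg_left hval2 (by positivity)
      _ ≤ _ := by rw [mul_one]; exact hval1
  have hScb₁ : b₁ ∈ Scal P T₁ := ⟨hb₁m, hb₁0, hlb₁i⟩
  have hScb₂ : b₂ ∈ Scal P T₂ := ⟨hb₂m, hb₂0, hlb₂i⟩
  have hsb : s ≤ (gm P b₁ * gm P b₂)⁻¹ := by
    have h1 := smean_le hScb₁ hScb₂ (fun x => (hf0 x).le) hhi
    rw [hI1, one_div, hsE] at h1
    exact (ENNReal.ofReal_le_ofReal_iff (inv_pos.2 (mul_pos (gm_pos _) (gm_pos _))).le).1 h1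
  -- the gap
  have hScc : (fun x => b₁ x * (w x)⁻¹) ∈ Scal P T₁ := by
    refine ⟨hb₁m.mul hwm.inv, fun x => mul_pos (hb₁0 x) (inv_pos.2 (hw0 x)), ?_⟩
    have h1 : ∀ x, Real.log (b₁ x * (w x)⁻¹) = Real.log (b₁ x) - Real.log (w x) := by
      intro x
      rw [Real.log_mul (hb₁0 x).ne' (inv_pos.2 (hw0 x)).ne', Real.log_inv (w x)]; ring
    simp only [h1]
    exact hlb₁i.sub hwli
  have hgmc : gm P (fun x => b₁ x * (w x)⁻¹) = gm P b₁ * (gm P w)⁻¹ := by
    have h1 : ∀ x, Real.log (b₁ x * (w x)⁻¹) = Real.log (b₁ x) - Real.log (w x) := by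
      intro x
      rw [Real.log_mul (hb₁0 x).ne' (inv_pos.2 (hw0 x)).ne', Real.log_inv (w x)]; ring
    unfold gm
    simp only [h1]
    rw [integral_sub hlb₁i hwli, Real.exp_sub, div_eq_mul_inv]
  have hwinv : ∀ x, |(w x)⁻¹| ≤ Real.exp (4 * C) := by
    intro x
    rw [abs_of_pos (inv_pos.2 (hw0 x))]
    have := inv_anti₀ (Real.exp_pos _) (hwl x)
    rwa [← Real.exp_neg, neg_neg] at this
  have hci : Integrable (fun x => (w x)⁻¹ * (b₁ x * f x * b₂ x)) P := by
    refine hhi.bdd_mul (c := Real.exp (4 * C)) hwM.inv.aestronglyMeasurable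
      (Eventually.of_forall fun x => ?_)
    rw [Real.norm_eq_abs]; exact hwinv x
  have hcI : ∫ x, (w x)⁻¹ * (b₁ x * f x * b₂ x) ∂P = 1 := by
    rw [(integral_pull (P := P) hle₁ (u := fun x => (w x)⁻¹) hwm.inv hhi hci hw).1]
    have h7 : ∀ x, (w x)⁻¹ * w x = 1 := fun x => inv_mul_cancel₀ (hw0 x).ne'
    simp [h7]
  have hgap : Real.exp (-δ) ≤ gm P w := by
    have h1 := smean_le hScc hScb₂ (fun x => (hf0 x).le)
      (hci.congr (Eventually.of_forall fun x => by simp only; ring))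
    have h2 : ∫ x, b₁ x * (w x)⁻¹ * f x * b₂ x ∂P = 1 := by
      rw [← hcI]
      exact integral_congr_ae (Eventually.of_forall fun x => by simp only; ring)
    rw [h2, one_div, hsE, hgmc] at h1
    have g3 := gm_pos (P := P) b₁
    have g4 := gm_pos (P := P) b₂
    have g5 := gm_pos (P := P) w
    have h3 := (ENNReal.ofReal_le_ofReal_iff (inv_pos.2 (by positivity)).le).1 h1
    have h4 : (gm P b₁ * (gm P w)⁻¹ * gm P b₂)⁻¹ = gm P w * (gm P b₁ * gm P b₂)⁻¹ := by
      field_simp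
    rw [h4] at h3
    have h5 : s ≤ gm P w * (s * Real.exp δ) := h3.trans (mul_le_mul_of_nonneg_left hVb g5.le)
    have h6 : 1 ≤ gm P w * Real.exp δ := by
      have h7 : s * 1 ≤ s * (gm P w * Real.exp δ) := by rw [mul_one]; linarith [h5]
      exact le_of_mul_le_mul_left h7 hs0
    rw [Real.exp_neg, inv_le_iff_one_le_mul₀ (Real.exp_pos _)]
    exact h6
  have hlogw : -δ ≤ ∫ x, Real.log (w x) ∂P := Real.exp_le_exp.1 hgap
  have hsq : ∫ x, (Real.sqrt (w x) - 1) ^ 2 ∂P ≤ δ := by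
    have h1 : Integrable (fun x => w x - 1 - Real.log (w x)) P :=
      (hwi.sub (integrable_const _)).sub hwli
    have h2 : Integrable (fun x => (Real.sqrt (w x) - 1) ^ 2) P := by
      refine Integrable.mono' h1 ((hwM.sqrt.sub measurable_const).pow_const 2).aestronglyMeasurable
        (Eventually.of_forall fun x => ?_)
      rw [Real.norm_of_nonneg (sq_nonneg _)]
      exact sqrt_ineq (hw0 x)
    refine (integral_mono h2 h1 fun x => sqrt_ineq (hw0 x)).trans ?_
    have h3 : Integrable (fun x => w x - 1) P := hwi.sub (integrable_const _)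
    rw [integral_sub h3 hwli, integral_sub hwi (integrable_const _), hwI]
    simp only [integral_const, probReal_univ, smul_eq_mul]
    linarith
  have hdev : ∫ x, |w x - 1| ∂P ≤ ε := by
    have hη : 0 < Real.sqrt δ := Real.sqrt_pos.2 hδ0
    have h2 : Integrable (fun x => (Real.sqrt (w x) - 1) ^ 2) P := by
      refine Integrable.mono' ((hwi.sub (integrable_const (1:ℝ))).sub hwli)
        ((hwM.sqrt.sub measurable_const).pow_const 2).aestronglyMeasurable
        (Eventually.of_forall fun x => ?_)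
      rw [Real.norm_of_nonneg (sq_nonneg _)]
      exact sqrt_ineq (hw0 x)
    have h1 : ∀ x, |w x - 1| ≤ R / 2 * ((Real.sqrt (w x) - 1) ^ 2 / Real.sqrt δ + Real.sqrt δ) := by
      intro x
      have e1 : w x - 1 = (Real.sqrt (w x) - 1) * (Real.sqrt (w x) + 1) := by
        have := Real.sq_sqrt (hw0 x).le
        nlinarith
      have e2 : Real.sqrt (w x) + 1 ≤ R := by
        have h3 : Real.sqrt (w x) ≤ Real.exp (2 * C) := by
          rw [Real.sqrt_le_left (Real.exp_pos _).le]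
          refine (hwL x).trans (le_of_eq ?_)
          rw [← Real.exp_nat_mul]; norm_num; ring
        rw [hR]; linarith
      have e3 : 0 ≤ Real.sqrt (w x) + 1 := by have := Real.sqrt_nonneg (w x); linarith
      rw [e1, abs_mul, abs_of_nonneg e3]
      have e4 : |Real.sqrt (w x) - 1| ≤ ((Real.sqrt (w x) - 1) ^ 2 / Real.sqrt δ + Real.sqrt δ) / 2 := by
        rw [← sq_abs]
        set t := |Real.sqrt (w x) - 1|
        have e5 : t ^ 2 / Real.sqrt δ + Real.sqrt δ - 2 * t = (t - Real.sqrt δ) ^ 2 / Real.sqrt δ := by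
          field_simp; ring
        have e6 : 0 ≤ (t - Real.sqrt δ) ^ 2 / Real.sqrt δ := by positivity
        linarith
      calc |Real.sqrt (w x) - 1| * (Real.sqrt (w x) + 1) ≤ |Real.sqrt (w x) - 1| * R :=
            mul_le_mul_of_nonneg_left e2 (abs_nonneg _)
        _ ≤ ((Real.sqrt (w x) - 1) ^ 2 / Real.sqrt δ + Real.sqrt δ) / 2 * R :=
            mul_le_mul_of_nonneg_right e4 (by linarith)
        _ = _ := by ring
    have h3 : Integrable (fun x => |w x - 1|) P := (hwi.sub (integrable_const _)).abs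
    have h5 : Integrable (fun x => (Real.sqrt (w x) - 1) ^ 2 / Real.sqrt δ) P := h2.div_const _
    have h4 : Integrable (fun x => R / 2 * ((Real.sqrt (w x) - 1) ^ 2 / Real.sqrt δ + Real.sqrt δ)) P :=
      (h5.add (integrable_const _)).const_mul _
    refine (integral_mono h3 h4 h1).trans ?_
    rw [integral_const_mul, integral_add h5 (integrable_const _), integral_div]
    simp only [integral_const, probReal_univ, smul_eq_mul, one_mul]
    have h6 : (∫ x, (Real.sqrt (w x) - 1) ^ 2 ∂P) / Real.sqrt δ ≤ Real.sqrt δ := by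
      rw [div_le_iff₀ hη, Real.mul_self_sqrt hδ0.le]
      exact hsq
    calc R / 2 * ((∫ x, (Real.sqrt (w x) - 1) ^ 2 ∂P) / Real.sqrt δ + Real.sqrt δ) ≤
        R / 2 * (Real.sqrt δ + Real.sqrt δ) := mul_le_mul_of_nonneg_left (by linarith) (by linarith)
      _ = R * Real.sqrt δ := by ring
      _ ≤ ε := hδR
  refine ⟨b₁, b₂, w, hb₁m, hb₂m, hwm, hb₁0, hb₂0, ⟨_, hlb₁⟩, ⟨_, hlb₂⟩, hhl, hhL, hcond2, hw,
    fun x => by rw [abs_of_pos (hw0 x)]; exact hwL x, hdev, hsb, hVb.trans ?_⟩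
  exact mul_le_mul_of_nonneg_left (Real.exp_le_exp.2 hδε) hs0.le

end main

end Pool.Agent.N256.LLP
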