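import Mathlib

set_option autoImplicit false
open scoped BigOperators

/-!
# Upper bound for the permanent by the entropy method
-/

namespace Pool.Agent.N256.LLP

/-- the weight of the columns which are still free -/
noncomputable def free {n : ℕ} (A : Fin n → Fin n → ℝ) (π : Equiv.Perm (Fin n)) (p : Fin n) : ℝ :=
  ∑ q, if p ≤ q then A p (π q) else 0

lemma free_pos {n : ℕ} {A : Fin n → Fin n → ℝ} (hA : ∀ i j, 0 < A i j) (π : Equiv.Perm (Fin n))
    (p : Fin n) : 0 < free A π p := by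
  unfold free
  have h1 : A p (π p) ≤ ∑ q, if p ≤ q then A p (π q) else 0 := by
    have h2 := Finset.single_le_sum (f := fun q => if p ≤ q then A p (π q) else 0)
      (fun q _ => by split_ifs; exacts [(hA _ _).le, le_rfl]) (Finset.mem_univ p)
    simpa using h2
  exact (hA _ _).trans_le h1

lemma free_zero {n : ℕ} (A : Fin (n + 1) → Fin (n + 1) → ℝ) (π : Equiv.Perm (Fin (n + 1))) :
    free A π 0 = ∑ k, A 0 k := by
  unfold free
  simp only [Fin.zero_le, if_true]
  exact Equiv.sum_comp π (fun k => A 0 k)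

lemma free_succ {n : ℕ} (A : Fin (n + 1) → Fin (n + 1) → ℝ) (j : Fin (n + 1))
    (e : Equiv.Perm (Fin n)) (p : Fin n) :
    free A (Equiv.Perm.decomposeFin.symm (j, e)) p.succ =
      free (fun a b => A a.succ (Equiv.swap 0 j b.succ)) e p := by
  unfold free
  rw [Fin.sum_univ_succ]
  have h0 : ¬ (p.succ ≤ 0) := by simp
  rw [if_neg h0, zero_add]
  apply Finset.sum_congr rfl
  intro q _
  simp only [Fin.succ_le_succ_iff, Equiv.Perm.decomposeFin_symm_apply_succ]

/-- the weights of the sequential sampling of a permutation sum up to one -/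
lemma seq_sum (n : ℕ) : ∀ A : Fin n → Fin n → ℝ, (∀ i j, 0 < A i j) →
    ∑ π : Equiv.Perm (Fin n), ∏ p, (A p (π p) / free A π p) = 1 := by
  induction n with
  | zero => intro A _; simp
  | succ n ih =>
    intro A hA
    rw [← Equiv.sum_comp Equiv.Perm.decomposeFin.symm
      (fun π : Equiv.Perm (Fin (n + 1)) => ∏ p, (A p (π p) / free A π p)), Fintype.sum_prod_type]
    have h1 : ∀ (j : Fin (n + 1)) (e : Equiv.Perm (Fin n)),
        ∏ p, (A p (Equiv.Perm.decomposeFin.symm (j, e) p) /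
          free A (Equiv.Perm.decomposeFin.symm (j, e)) p) =
        A 0 j / (∑ k, A 0 k) * ∏ p : Fin n, ((fun a b => A a.succ (Equiv.swap 0 j b.succ)) p (e p) /
          free (fun a b => A a.succ (Equiv.swap 0 j b.succ)) e p) := by
      intro j e
      rw [Fin.prod_univ_succ, free_zero, Equiv.Perm.decomposeFin_symm_apply_zero]
      congr 1
      apply Finset.prod_congr rfl
      intro p _
      rw [free_succ, Equiv.Perm.decomposeFin_symm_apply_succ]
    have h2 : ∀ j : Fin (n + 1), ∑ e : Equiv.Perm (Fin n), ∏ p : Fin n,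
        ((fun a b => A a.succ (Equiv.swap 0 j b.succ)) p (e p) /
          free (fun a b => A a.succ (Equiv.swap 0 j b.succ)) e p) = 1 :=
      fun j => ih (fun a b => A a.succ (Equiv.swap 0 j b.succ)) (fun a b => hA a.succ _)
    have h3 : ∀ j : Fin (n + 1), ∑ e : Equiv.Perm (Fin n),
        ∏ p, (A p (Equiv.Perm.decomposeFin.symm (j, e) p) /
          free A (Equiv.Perm.decomposeFin.symm (j, e)) p) = A 0 j / (∑ k, A 0 k) := by
      intro j
      rw [Finset.sum_congr rfl fun e _ => h1 j e, ← Finset.mul_sum, h2 j, mul_one]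
    rw [Finset.sum_congr rfl fun j _ => h3 j, ← Finset.sum_div]
    exact div_self (Finset.sum_pos (fun k _ => hA 0 k) ⟨0, Finset.mem_univ _⟩).ne'

variable {n : ℕ}

/-- the weight of the free columns when the rows are processed in the order `ρ` -/
noncomputable def fr2 (A : Fin n → Fin n → ℝ) (ρ σ : Equiv.Perm (Fin n)) (p : Fin n) : ℝ :=
  ∑ q, if p ≤ q then A (ρ p) (σ (ρ q)) else 0

lemma fr2_eq (A : Fin n → Fin n → ℝ) (ρ σ : Equiv.Perm (Fin n)) (p : Fin n) :
    fr2 A ρ σ p = free (fun a b => A (ρ a) b) (σ * ρ) p := rfl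

lemma fr2_pos {A : Fin n → Fin n → ℝ} (hA : ∀ i j, 0 < A i j) (ρ σ : Equiv.Perm (Fin n))
    (p : Fin n) : 0 < fr2 A ρ σ p := by
  rw [fr2_eq]
  exact free_pos (fun _ _ => hA _ _) _ _

lemma seq_sum2 {A : Fin n → Fin n → ℝ} (hA : ∀ i j, 0 < A i j) (ρ : Equiv.Perm (Fin n)) :
    ∑ σ : Equiv.Perm (Fin n), (∏ i, A i (σ i)) / ∏ p, fr2 A ρ σ p = 1 := by
  have h1 := seq_sum n (fun a b => A (ρ a) b) (fun _ _ => hA _ _)
  rw [← Equiv.sum_comp (Equiv.mulRight ρ)
    (fun π : Equiv.Perm (Fin n) => ∏ p, (A (ρ p) (π p) / free (fun a b => A (ρ a) b) π p))] at h1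
  rw [← h1]
  apply Finset.sum_congr rfl
  intro σ _
  rw [Finset.prod_div_distrib]
  congr 1
  simp only [Equiv.coe_mulRight, Equiv.Perm.mul_apply]
  exact (Equiv.prod_comp ρ (fun i => A i (σ i))).symm

/-- Gibbs' inequality -/
lemma gibbs {A : Fin n → Fin n → ℝ} (hA : ∀ i j, 0 < A i j) (ρ : Equiv.Perm (Fin n)) :
    Real.log (∑ σ : Equiv.Perm (Fin n), ∏ i, A i (σ i)) ≤
      ∑ σ : Equiv.Perm (Fin n), (∏ i, A i (σ i)) / (∑ σ : Equiv.Perm (Fin n), ∏ i, A i (σ i)) *
        ∑ p, Real.log (fr2 A ρ σ p) := by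
  set Z : ℝ := ∑ σ : Equiv.Perm (Fin n), ∏ i, A i (σ i) with hZ
  have hw : ∀ σ : Equiv.Perm (Fin n), 0 < ∏ i, A i (σ i) := fun σ =>
    Finset.prod_pos fun i _ => hA _ _
  have hZ0 : 0 < Z := Finset.sum_pos (fun σ _ => hw σ) ⟨1, Finset.mem_univ _⟩
  have hN : ∀ σ : Equiv.Perm (Fin n), 0 < ∏ p, fr2 A ρ σ p := fun σ =>
    Finset.prod_pos fun i _ => fr2_pos hA _ _ _
  have h1 : ∀ σ : Equiv.Perm (Fin n), (∏ i, A i (σ i)) / Z *
      (Real.log Z - ∑ p, Real.log (fr2 A ρ σ p)) ≤
      (∏ i, A i (σ i)) / ∏ p, fr2 A ρ σ p - (∏ i, A i (σ i)) / Z := by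
    intro σ
    have h2 : Real.log Z - ∑ p, Real.log (fr2 A ρ σ p) = Real.log (Z / ∏ p, fr2 A ρ σ p) := by
      rw [Real.log_div hZ0.ne' (hN σ).ne', Real.log_prod (fun p _ => (fr2_pos hA ρ σ p).ne')]
    rw [h2]
    have h3 := Real.log_le_sub_one_of_pos (div_pos hZ0 (hN σ))
    have h4 := mul_le_mul_of_nonneg_left h3 (div_pos (hw σ) hZ0).le
    refine h4.trans (le_of_eq ?_)
    have := (hN σ).ne'
    field_simp
  have h2 := Finset.sum_le_sum fun σ (_ : σ ∈ (Finset.univ : Finset (Equiv.Perm (Fin n)))) => h1 σ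
  rw [Finset.sum_sub_distrib, seq_sum2 hA ρ, ← Finset.sum_div, ← hZ, div_self hZ0.ne', sub_self] at h2
  simp only [mul_sub, Finset.sum_sub_distrib] at h2
  rw [← Finset.sum_mul, ← Finset.sum_div, ← hZ, div_self hZ0.ne', one_mul] at h2
  linarith

lemma two_trans {p q p' q' : Fin n} (h : p ≠ q) (h' : p' ≠ q') :
    ∃ π : Equiv.Perm (Fin n), π p = p' ∧ π q = q' := by
  refine ⟨Equiv.swap (Equiv.swap p p' q) q' * Equiv.swap p p', ?_, ?_⟩
  · rw [Equiv.Perm.mul_apply, Equiv.swap_apply_left]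
    apply Equiv.swap_apply_of_ne_of_ne
    · intro h2
      have h3 : Equiv.swap p p' p = Equiv.swap p p' q := by rw [Equiv.swap_apply_left]; exact h2
      exact h ((Equiv.swap p p').injective h3)
    · exact h'
  · rw [Equiv.Perm.mul_apply, Equiv.swap_apply_left]

/-- the distribution of the values of a random permutation at two points -/
lemma two_point (F : Fin n → Fin n → ℝ) {p q : Fin n} (hpq : p ≠ q) :
    (∑ ρ : Equiv.Perm (Fin n), F (ρ p) (ρ q)) * ((n : ℝ) * (n - 1)) =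
      n.factorial * ∑ i, ∑ k, if i ≠ k then F i k else 0 := by
  have h1 : ∀ p' q' : Fin n, p' ≠ q' → ∑ ρ : Equiv.Perm (Fin n), F (ρ p') (ρ q') =
      ∑ ρ : Equiv.Perm (Fin n), F (ρ p) (ρ q) := by
    intro p' q' h'
    obtain ⟨π, h2, h3⟩ := two_trans hpq h'
    rw [← Equiv.sum_comp (Equiv.mulRight π) (fun ρ : Equiv.Perm (Fin n) => F (ρ p) (ρ q))]
    simp only [Equiv.coe_mulRight, Equiv.Perm.mul_apply, h2, h3]
  have h2 : ∑ p' : Fin n, ∑ q' : Fin n, (if p' ≠ q' then ∑ ρ : Equiv.Perm (Fin n), F (ρ p') (ρ q') else 0)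
      = (∑ ρ : Equiv.Perm (Fin n), F (ρ p) (ρ q)) * ((n : ℝ) * (n - 1)) := by
    have h3 : ∀ p' q' : Fin n, (if p' ≠ q' then ∑ ρ : Equiv.Perm (Fin n), F (ρ p') (ρ q') else 0) =
        (∑ ρ : Equiv.Perm (Fin n), F (ρ p) (ρ q)) * (1 - if p' = q' then 1 else 0) := by
      intro p' q'
      by_cases h : p' = q'
      · simp [h]
      · rw [if_pos h, if_neg h, h1 p' q' h]; ring
    simp only [h3, ← Finset.mul_sum, Finset.sum_sub_distrib]
    simp only [Finset.sum_const, Finset.card_univ, Fintype.card_fin, nsmul_eq_mul, mul_one,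
      Finset.sum_ite_eq, Finset.mem_univ, if_true]
    ring
  rw [← h2]
  have h3 : ∀ ρ : Equiv.Perm (Fin n), ∑ p' : Fin n, ∑ q' : Fin n,
      (if p' ≠ q' then F (ρ p') (ρ q') else 0) = ∑ i, ∑ k, if i ≠ k then F i k else 0 := by
    intro ρ
    rw [← Equiv.sum_comp ρ (fun i => ∑ k, if i ≠ k then F i k else 0)]
    apply Finset.sum_congr rfl
    intro p' _
    rw [← Equiv.sum_comp ρ (fun k => if ρ p' ≠ k then F (ρ p') k else 0)]
    apply Finset.sum_congr rfl
    intro q' _
    simp only [ne_eq, EmbeddingLike.apply_eq_iff_eq]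
  calc ∑ p' : Fin n, ∑ q' : Fin n, (if p' ≠ q' then ∑ ρ : Equiv.Perm (Fin n), F (ρ p') (ρ q') else 0)
      = ∑ p' : Fin n, ∑ q' : Fin n, ∑ ρ : Equiv.Perm (Fin n), (if p' ≠ q' then F (ρ p') (ρ q') else 0) := by
        apply Finset.sum_congr rfl; intro p' _
        apply Finset.sum_congr rfl; intro q' _
        split_ifs <;> simp
    _ = ∑ ρ : Equiv.Perm (Fin n), ∑ p' : Fin n, ∑ q' : Fin n, (if p' ≠ q' then F (ρ p') (ρ q') else 0) := by
        have h4 : ∀ p' : Fin n, ∑ q' : Fin n, ∑ ρ : Equiv.Perm (Fin n),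
            (if p' ≠ q' then F (ρ p') (ρ q') else 0) = ∑ ρ : Equiv.Perm (Fin n), ∑ q' : Fin n,
            (if p' ≠ q' then F (ρ p') (ρ q') else 0) := fun p' => Finset.sum_comm
        rw [Finset.sum_congr rfl fun p' _ => h4 p']
        exact Finset.sum_comm
    _ = _ := by
        simp only [h3]
        simp [Fintype.card_perm]

/-- the mean over the orders of the weight of the free columns -/
lemma sum_fr2 {A : Fin n → Fin n → ℝ} (hA : ∀ i j, 0 < A i j) {L m : ℝ} (hm : 0 ≤ m)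
    (hL : ∀ i j, A i j ≤ L) (hS : ∑ i, ∑ j, A i j ≤ (n : ℝ) ^ 2 * m) (σ : Equiv.Perm (Fin n))
    (p : Fin n) :
    ∑ ρ : Equiv.Perm (Fin n), fr2 A ρ σ p ≤ n.factorial * (L + m * (n - (p : ℕ))) := by
  have hfac : (0 : ℝ) ≤ n.factorial := by positivity
  unfold fr2
  rw [Finset.sum_comm]
  have h1 : ∀ q : Fin n, ∑ ρ : Equiv.Perm (Fin n), (if p ≤ q then A (ρ p) (σ (ρ q)) else 0) ≤
      n.factorial * ((if q = p then L else 0) + (if p < q then n * m / (n - 1) else 0)) := by
    intro q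
    rcases lt_trichotomy p q with h | h | h
    · have hn2 : (2 : ℝ) ≤ n := by
        have h2 : (p : ℕ) < q := h
        have h3 := q.2
        have : 2 ≤ n := by omega
        exact_mod_cast this
      have h2 : ∀ ρ : Equiv.Perm (Fin n), (if p ≤ q then A (ρ p) (σ (ρ q)) else 0) =
          (fun i k => A i (σ k)) (ρ p) (ρ q) := fun ρ => by rw [if_pos h.le]
      rw [Finset.sum_congr rfl fun ρ _ => h2 ρ]
      have h3 := two_point (fun i k => A i (σ k)) h.ne
      have h4 : ∑ i, ∑ k, (if i ≠ k then A i (σ k) else 0) ≤ (n : ℝ) ^ 2 * m := by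
        refine le_trans (Finset.sum_le_sum fun i _ => ?_) hS
        rw [← Equiv.sum_comp σ (fun j => A i j)]
        apply Finset.sum_le_sum
        intro k _
        split_ifs
        · exact le_rfl
        · exact (hA _ _).le
      have h5 : (n.factorial : ℝ) * ∑ i, ∑ k, (if i ≠ k then A i (σ k) else 0) ≤
          n.factorial * ((n : ℝ) ^ 2 * m) := mul_le_mul_of_nonneg_left h4 hfac
      rw [← h3] at h5
      rw [if_neg h.ne', if_pos h, zero_add]
      have h6 : (0 : ℝ) < n * (n - 1) := by nlinarith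
      have h7 : (n.factorial : ℝ) * (n * m / (n - 1)) = n.factorial * ((n : ℝ) ^ 2 * m) / (n * (n - 1)) := by
        have : (n : ℝ) - 1 ≠ 0 := by linarith
        have : (n : ℝ) ≠ 0 := by linarith
        field_simp
      rw [h7, le_div_iff₀ h6]
      exact h5
    · subst h
      simp only [le_refl, if_true, lt_irrefl, if_false, add_zero]
      calc ∑ ρ : Equiv.Perm (Fin n), A (ρ p) (σ (ρ p)) ≤ ∑ ρ : Equiv.Perm (Fin n), L :=
            Finset.sum_le_sum fun ρ _ => hL _ _
        _ = _ := by simp [Fintype.card_perm]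
    · have h2 : ¬ p ≤ q := not_le.2 h
      simp only [if_neg h2, Finset.sum_const_zero, if_neg h.ne, if_neg (not_lt.2 h.le), add_zero,
        mul_zero, le_refl]
  refine (Finset.sum_le_sum fun q _ => h1 q).trans ?_
  rw [← Finset.mul_sum]
  apply mul_le_mul_of_nonneg_left _ hfac
  rw [Finset.sum_add_distrib, Finset.sum_ite_eq' Finset.univ p, if_pos (Finset.mem_univ _)]
  have h2 : ∑ q : Fin n, (if p < q then (n : ℝ) * m / (n - 1) else 0) =
      (n - 1 - (p : ℕ) : ℝ) * (n * m / (n - 1)) := by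
    rw [← Finset.sum_filter, Finset.sum_const]
    have h3 : (Finset.univ.filter (fun q : Fin n => p < q)).card = n - 1 - (p : ℕ) := by
      rw [← Fin.card_Ioi p]
      congr 1
      ext q
      simp
    rw [h3, nsmul_eq_mul]
    congr 1
    have := p.2
    rw [Nat.cast_sub (by omega), Nat.cast_sub (by omega)]
    simp
  rw [h2]
  apply add_le_add le_rfl
  have hp := p.2
  by_cases hn1 : n = 1
  · subst hn1
    have : (p : ℕ) = 0 := by omega
    rw [this]
    simpa using hm
  · have hn2 : (2 : ℝ) ≤ n := by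
      have : 2 ≤ n := by omega
      exact_mod_cast this
    have h4 : (0 : ℝ) < n - 1 := by linarith
    have h5 : (p : ℝ) + 1 ≤ n := by exact_mod_cast hp
    have h6 : (0 : ℝ) ≤ (p : ℝ) := Nat.cast_nonneg _
    have h7 : ((n : ℝ) - 1 - (p : ℕ)) * (n * m / (n - 1)) = m * (((n : ℝ) - 1 - (p : ℕ)) * n / (n - 1)) := by
      ring
    rw [h7]
    apply mul_le_mul_of_nonneg_left _ hm
    rw [div_le_iff₀ h4]
    nlinarith

/-- upper bound for the permanent -/
theorem per_upper {A : Matrix (Fin n) (Fin n) ℝ} (hA : ∀ i j, 0 < A i j) {L m : ℝ} (hm : 0 < m)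
    (hL : ∀ i j, A i j ≤ L) (hS : ∑ i, ∑ j, A i j ≤ (n : ℝ) ^ 2 * m) :
    A.permanent ≤ m ^ n * n.factorial * Real.exp (L / m * ∑ k ∈ Finset.range n, 1 / ((k : ℝ) + 1)) := by
  have hper : A.permanent = ∑ σ : Equiv.Perm (Fin n), ∏ i, A i (σ i) := by
    rw [← Matrix.permanent_transpose]; rfl
  rw [hper]
  rcases Nat.eq_zero_or_pos n with hn | hn
  · subst hn
    simp
  have i0 : Fin n := ⟨0, hn⟩
  have hL0 : 0 < L := (hA i0 i0).trans_le (hL i0 i0)
  set Z : ℝ := ∑ σ : Equiv.Perm (Fin n), ∏ i, A i (σ i) with hZ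
  have hw : ∀ σ : Equiv.Perm (Fin n), 0 < ∏ i, A i (σ i) := fun σ =>
    Finset.prod_pos fun i _ => hA _ _
  have hZ0 : 0 < Z := Finset.sum_pos (fun σ _ => hw σ) ⟨1, Finset.mem_univ _⟩
  set M : Fin n → ℝ := fun p => L + m * (n - (p : ℕ)) with hM
  have hM0 : ∀ p, 0 < M p := by
    intro p
    have hp : ((p : ℕ) : ℝ) ≤ n := by exact_mod_cast p.2.le
    have : 0 ≤ m * (n - (p : ℕ)) := mul_nonneg hm.le (by linarith)
    simp only [hM]
    linarith
  have hfac : (0 : ℝ) < n.factorial := by positivity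
  -- average over the orders
  have h1 : ∀ (σ : Equiv.Perm (Fin n)) (p : Fin n), ∑ ρ : Equiv.Perm (Fin n), Real.log (fr2 A ρ σ p) ≤
      n.factorial * Real.log (M p) := by
    intro σ p
    have h2 : ∀ ρ : Equiv.Perm (Fin n), Real.log (fr2 A ρ σ p) ≤
        Real.log (M p) + (fr2 A ρ σ p / M p - 1) := by
      intro ρ
      have h3 := Real.log_le_sub_one_of_pos (div_pos (fr2_pos hA ρ σ p) (hM0 p))
      rw [Real.log_div (fr2_pos hA ρ σ p).ne' (hM0 p).ne'] at h3
      linarith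
    refine (Finset.sum_le_sum fun ρ _ => h2 ρ).trans ?_
    rw [Finset.sum_add_distrib, Finset.sum_sub_distrib, ← Finset.sum_div]
    simp only [Finset.sum_const, Finset.card_univ, Fintype.card_perm, Fintype.card_fin, nsmul_eq_mul,
      mul_one]
    have h3 := sum_fr2 hA hm.le hL hS σ p
    have h4 : (∑ ρ : Equiv.Perm (Fin n), fr2 A ρ σ p) / M p ≤ n.factorial := by
      rw [div_le_iff₀ (hM0 p)]
      exact h3
    linarith
  have h2 : Real.log Z ≤ ∑ p, Real.log (M p) := by
    have h3 : (n.factorial : ℝ) * Real.log Z ≤ n.factorial * ∑ p, Real.log (M p) := by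
      calc (n.factorial : ℝ) * Real.log Z = ∑ ρ : Equiv.Perm (Fin n), Real.log Z := by
            simp [Fintype.card_perm]
        _ ≤ ∑ ρ : Equiv.Perm (Fin n), ∑ σ : Equiv.Perm (Fin n), (∏ i, A i (σ i)) / Z *
              ∑ p, Real.log (fr2 A ρ σ p) := Finset.sum_le_sum fun ρ _ => gibbs hA ρ
        _ = ∑ σ : Equiv.Perm (Fin n), (∏ i, A i (σ i)) / Z * ∑ p, ∑ ρ : Equiv.Perm (Fin n),
              Real.log (fr2 A ρ σ p) := by
            rw [Finset.sum_comm]
            apply Finset.sum_congr rfl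
            intro σ _
            rw [← Finset.mul_sum, Finset.sum_comm]
        _ ≤ ∑ σ : Equiv.Perm (Fin n), (∏ i, A i (σ i)) / Z * ∑ p, (n.factorial * Real.log (M p)) :=
            Finset.sum_le_sum fun σ _ => mul_le_mul_of_nonneg_left
              (Finset.sum_le_sum fun p _ => h1 σ p) (div_pos (hw σ) hZ0).le
        _ = _ := by
            rw [← Finset.sum_mul, ← Finset.sum_div, ← hZ, div_self hZ0.ne', one_mul, Finset.mul_sum]
    exact le_of_mul_le_mul_left h3 hfac
  -- evaluation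
  have h3 : ∑ p, Real.log (M p) = ∑ k ∈ Finset.range n, Real.log (L + m * ((k : ℝ) + 1)) := by
    rw [Finset.sum_range fun k => Real.log (L + m * ((k : ℝ) + 1))]
    rw [← Equiv.sum_comp Fin.revPerm]
    apply Finset.sum_congr rfl
    intro p _
    simp only [hM, Fin.revPerm_apply]
    congr 3
    rw [Fin.val_rev, Nat.cast_sub (by have := p.2; omega)]
    push_cast
    ring
  have h4 : ∀ k : ℕ, Real.log (L + m * ((k : ℝ) + 1)) ≤
      Real.log m + Real.log ((k : ℝ) + 1) + L / m * (1 / ((k : ℝ) + 1)) := by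
    intro k
    have hk : (0 : ℝ) < (k : ℝ) + 1 := by positivity
    have h5 : L + m * ((k : ℝ) + 1) = m * ((k : ℝ) + 1) * (1 + L / m * (1 / ((k : ℝ) + 1))) := by
      field_simp
      ring
    have h6 : 0 < 1 + L / m * (1 / ((k : ℝ) + 1)) := by positivity
    rw [h5, Real.log_mul (by positivity) h6.ne', Real.log_mul hm.ne' hk.ne']
    have h7 := Real.log_le_sub_one_of_pos h6
    linarith
  have h5 : Real.log Z ≤ Real.log (m ^ n * n.factorial *
      Real.exp (L / m * ∑ k ∈ Finset.range n, 1 / ((k : ℝ) + 1))) := by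
    rw [Real.log_mul (by positivity) (Real.exp_pos _).ne', Real.log_mul (by positivity) hfac.ne',
      Real.log_exp, Real.log_pow, ← Finset.prod_range_add_one_eq_factorial]
    push_cast
    rw [Real.log_prod (fun k _ => by positivity)]
    refine h2.trans (h3.le.trans ((Finset.sum_le_sum fun k _ => h4 k).trans (le_of_eq ?_)))
    rw [Finset.sum_add_distrib, Finset.sum_add_distrib, ← Finset.mul_sum]
    simp
  exact (Real.log_le_log_iff hZ0 (by positivity)).1 h5

end Pool.Agent.N256.LLP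

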