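import Mathlib
import Pool.Agent.N256.LLP.Low
import Pool.Agent.N256.LLP.Up
import Pool.Agent.N256.LLP.Opt2

set_option autoImplicit false
set_option linter.unusedSectionVars false

/-!
# The law of large permanents
-/

namespace Pool.Agent.N256.LLP

open MeasureTheory Filter Topology Set ProbabilityTheory
open scoped ENNReal
open Pool.Agent.R243.Erg (av av_meas birkhoff_L1)

/-- the logarithm of the permanental mean -/
noncomputable def lp {n : ℕ} (B : Matrix (Fin n) (Fin n) ℝ) : ℝ :=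
  Real.log (B.permanent / n.factorial) / n

lemma per_eq' {n : ℕ} (A : Matrix (Fin n) (Fin n) ℝ) :
    A.permanent = ∑ σ : Equiv.Perm (Fin n), ∏ i, A i (σ i) := by
  rw [← Matrix.permanent_transpose]; rfl

lemma per_pos {n : ℕ} {A : Matrix (Fin n) (Fin n) ℝ} (hA : ∀ i j, 0 < A i j) : 0 < A.permanent := by
  rw [per_eq']
  exact Finset.sum_pos (fun σ _ => Finset.prod_pos fun i _ => hA _ _) ⟨1, Finset.mem_univ _⟩

lemma pmean_eq {n : ℕ} {A : Matrix (Fin n) (Fin n) ℝ} (hA : ∀ i j, 0 < A i j) :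
    pmean A = Real.exp (lp A) := by
  unfold pmean lp
  rw [Real.rpow_def_of_pos (div_pos (per_pos hA) (by positivity))]
  congr 1
  ring

lemma per_scale {n : ℕ} (A : Matrix (Fin n) (Fin n) ℝ) (x y : Fin n → ℝ) :
    (Matrix.of fun i j => y j * A i j * x i).permanent = (∏ i, x i) * (∏ j, y j) * A.permanent := by
  rw [per_eq', per_eq', Finset.mul_sum]
  apply Finset.sum_congr rfl
  intro σ _
  simp only [Matrix.of_apply]
  rw [Finset.prod_mul_distrib, Finset.prod_mul_distrib, Equiv.prod_comp σ y]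
  ring

lemma lp_scale {n : ℕ} (hn : 0 < n) {A : Matrix (Fin n) (Fin n) ℝ} (hA : ∀ i j, 0 < A i j)
    {x y : Fin n → ℝ} (hx : ∀ i, 0 < x i) (hy : ∀ i, 0 < y i) :
    lp (Matrix.of fun i j => y j * A i j * x i) =
      lp A + (∑ i, Real.log (x i)) / n + (∑ j, Real.log (y j)) / n := by
  have hn0 : (0 : ℝ) < n := by exact_mod_cast hn
  unfold lp
  rw [per_scale]
  have h1 : 0 < ∏ i, x i := Finset.prod_pos fun i _ => hx i
  have h2 : 0 < ∏ i, y i := Finset.prod_pos fun i _ => hy i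
  have h3 := per_pos hA
  have h4 : (0 : ℝ) < n.factorial := by positivity
  rw [Real.log_div (by positivity) h4.ne', Real.log_mul (by positivity) h3.ne',
    Real.log_mul h1.ne' h2.ne', Real.log_div h3.ne' h4.ne', Real.log_prod (fun i _ => (hx i).ne'),
    Real.log_prod (fun i _ => (hy i).ne')]
  field_simp
  ring

lemma er_nonneg {n : ℕ} (B : Matrix (Fin n) (Fin n) ℝ) : 0 ≤ er B :=
  div_nonneg (Finset.sum_nonneg fun _ _ => abs_nonneg _) (Nat.cast_nonneg _)

lemma lp_upper {n : ℕ} (hn : 0 < n) {A : Matrix (Fin n) (Fin n) ℝ} (hA : ∀ i j, 0 < A i j) {L : ℝ}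
    (hL : ∀ i j, A i j ≤ L) :
    lp A ≤ er A + L * ((∑ k ∈ Finset.range n, 1 / ((k : ℝ) + 1)) / n) := by
  have hn0 : (0 : ℝ) < n := by exact_mod_cast hn
  have i0 : Fin n := ⟨0, hn⟩
  have hL0 : 0 < L := (hA i0 i0).trans_le (hL i0 i0)
  have he := er_nonneg A
  have hm : 0 < 1 + er A := by linarith
  have hS : ∑ i, ∑ j, A i j ≤ (n : ℝ) ^ 2 * (1 + er A) := by
    have h1 : ∀ i, ∑ j, A i j ≤ n * (1 + |rav A i - 1|) := by
      intro i
      have h2 : ∑ j, A i j = n * rav A i := by rw [rav]; field_simp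
      rw [h2]
      apply mul_le_mul_of_nonneg_left _ hn0.le
      have := le_abs_self (rav A i - 1)
      linarith
    refine (Finset.sum_le_sum fun i _ => h1 i).trans (le_of_eq ?_)
    rw [← Finset.mul_sum, Finset.sum_add_distrib, er]
    simp only [Finset.sum_const, Finset.card_univ, Fintype.card_fin, nsmul_eq_mul, mul_one]
    field_simp
  have h1 := per_upper hA hm hL hS
  have hfac : (0 : ℝ) < n.factorial := by positivity
  have hH : 0 ≤ ∑ k ∈ Finset.range n, 1 / ((k : ℝ) + 1) := Finset.sum_nonneg fun k _ => by positivity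
  have h2 : Real.log (A.permanent / n.factorial) ≤
      n * Real.log (1 + er A) + L / (1 + er A) * ∑ k ∈ Finset.range n, 1 / ((k : ℝ) + 1) := by
    have h3 : A.permanent / n.factorial ≤ (1 + er A) ^ n *
        Real.exp (L / (1 + er A) * ∑ k ∈ Finset.range n, 1 / ((k : ℝ) + 1)) := by
      rw [div_le_iff₀ hfac]
      linarith
    have h4 := Real.log_le_log (div_pos (per_pos hA) hfac) h3
    rwa [Real.log_mul (by positivity) (Real.exp_pos _).ne', Real.log_exp, Real.log_pow] at h4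
  unfold lp
  rw [div_le_iff₀ hn0]
  have h3 : Real.log (1 + er A) ≤ er A := by
    have := Real.log_le_sub_one_of_pos hm
    linarith
  have h4 : L / (1 + er A) ≤ L := div_le_self hL0.le (by linarith)
  have h5 : L / (1 + er A) * ∑ k ∈ Finset.range n, 1 / ((k : ℝ) + 1) ≤
      L * ∑ k ∈ Finset.range n, 1 / ((k : ℝ) + 1) := mul_le_mul_of_nonneg_right h4 hH
  have h6 : (n : ℝ) * Real.log (1 + er A) ≤ n * er A := mul_le_mul_of_nonneg_left h3 hn0.le
  calc Real.log (A.permanent / n.factorial) ≤ n * er A + L * ∑ k ∈ Finset.range n, 1 / ((k : ℝ) + 1) := by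
        linarith
    _ = _ := by field_simp

lemma lp_lower {n : ℕ} (hn : 0 < n) {B : Matrix (Fin n) (Fin n) ℝ} {l L M d U : ℝ} (hl : 0 < l)
    (hl1 : l ≤ 1) (hB : ∀ i j, l ≤ B i j) (hB' : ∀ i j, B i j ≤ L) (hd : 0 < d)
    (hd1 : d ≤ 1) (hU : 1 ≤ U) (hdM : - Real.log d ≤ M) (hUM : Real.log U ≤ M) :
    -(L * d / l + 1 / U + (er B / l + M * (ec B + L * er B / l))) ≤ lp B := by
  have hn0 : (0 : ℝ) < n := by exact_mod_cast hn
  have h1 := per_lower hn hl hl1 hB hB' hd hd1 hU hdM hUM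
  have hfac : (0 : ℝ) < n.factorial := by positivity
  have h2 : Real.exp (-(n * (L * d / l + 1 / U + (er B / l + M * (ec B + L * er B / l))))) ≤
      B.permanent / n.factorial := by rwa [le_div_iff₀ hfac]
  have h3 := Real.log_le_log (Real.exp_pos _) h2
  rw [Real.log_exp] at h3
  unfold lp
  rw [le_div_iff₀ hn0]
  linarith

/-- the averages of the harmonic numbers tend to zero -/
lemma harm_lim : Tendsto (fun n : ℕ => (∑ k ∈ Finset.range n, 1 / ((k : ℝ) + 1)) / n) atTop (𝓝 0) := by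
  have h1 : Tendsto (fun k : ℕ => 1 / ((k : ℝ) + 1)) atTop (𝓝 0) :=
    tendsto_one_div_add_atTop_nhds_zero_nat
  have h2 := h1.cesaro
  refine h2.congr fun n => ?_
  rw [inv_mul_eq_div]

variable {Ω : Type*} [mΩ : MeasurableSpace Ω] {P : Measure Ω} {T₁ T₂ : Ω → Ω} {f : Ω → ℝ}

lemma comm_iter (hc : Function.Commute T₁ T₂) (i j : ℕ) (x : Ω) :
    T₁^[i] (T₂^[j] x) = T₂^[j] (T₁^[i] x) := (hc.iterate_iterate i j) x

lemma inv_iter {T : Ω → Ω} {g : Ω → ℝ} (hg : Measurable[MeasurableSpace.invariants T] g) (j : ℕ)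
    (x : Ω) : g (T^[j] x) = g x := by
  have h1 : ∀ y, g (T y) = g y := fun y =>
    congrFun (MeasurableSpace.comp_eq_of_measurable_invariants hg) y
  induction j with
  | zero => rfl
  | succ j ih => rw [Function.iterate_succ_apply', h1, ih]

lemma er_sampled (hc : Function.Commute T₁ T₂) (h : Ω → ℝ) (n : ℕ) (x : Ω) :
    er (sampled T₁ T₂ h n x) = av T₁ n (fun y => |av T₂ n h y - 1|) x := by
  unfold er av rav
  rw [inv_mul_eq_div]
  congr 1
  rw [Finset.sum_range]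
  apply Finset.sum_congr rfl
  intro i _
  congr 2
  rw [inv_mul_eq_div, Finset.sum_range]
  congr 1
  apply Finset.sum_congr rfl
  intro j _
  simp only [sampled, Matrix.of_apply]
  rw [comm_iter hc]

lemma ec_sampled (h : Ω → ℝ) (n : ℕ) (x : Ω) :
    ec (sampled T₁ T₂ h n x) = av T₂ n (fun y => |av T₁ n h y - 1|) x := by
  unfold ec av cav
  rw [inv_mul_eq_div]
  congr 1
  rw [Finset.sum_range]
  apply Finset.sum_congr rfl
  intro i _
  congr 2
  rw [inv_mul_eq_div, Finset.sum_range]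
  congr 1

/-- the key estimate for one almost optimal pair -/
lemma key [IsProbabilityMeasure P] (hT₁ : MeasurePreserving T₁ P P)
    (hT₂ : MeasurePreserving T₂ P P) (hc : Function.Commute T₁ T₂)
    (herg : ∀ s, MeasurableSet s → T₁ ⁻¹' s = s → T₂ ⁻¹' s = s → P s = 0 ∨ P s = 1)
    {C : ℝ} (hC : 0 ≤ C) (hfm : Measurable f) (hf : ∀ x, Real.exp (-C) ≤ f x)
    {s ε : ℝ} (hs : 0 < s)
    {b₁ b₂ w : Ω → ℝ} (hb₁m : Measurable[MeasurableSpace.invariants T₁] b₁)
    (hb₂m : Measurable[MeasurableSpace.invariants T₂] b₂)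
    (hwm : Measurable[MeasurableSpace.invariants T₁] w) (hb₁0 : ∀ x, 0 < b₁ x) (hb₂0 : ∀ x, 0 < b₂ x)
    {K₁ K₂ : ℝ} (hK₁ : ∀ x, |Real.log (b₁ x)| ≤ K₁) (hK₂ : ∀ x, |Real.log (b₂ x)| ≤ K₂)
    (hhl : ∀ x, Real.exp (-(4 * C)) ≤ b₁ x * f x * b₂ x)
    (hhL : ∀ x, b₁ x * f x * b₂ x ≤ Real.exp (4 * C))
    (hc2 : P[fun x => b₁ x * f x * b₂ x | MeasurableSpace.invariants T₂] =ᵐ[P] (fun _ => (1 : ℝ)))
    (hc1 : P[fun x => b₁ x * f x * b₂ x | MeasurableSpace.invariants T₁] =ᵐ[P] w)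
    (hwL : ∀ x, |w x| ≤ Real.exp (4 * C)) (hdev : ∫ x, |w x - 1| ∂P ≤ ε)
    (hs1 : s ≤ (gm P b₁ * gm P b₂)⁻¹) (hs2 : (gm P b₁ * gm P b₂)⁻¹ ≤ s * Real.exp ε)
    {d U M κ : ℝ} (hκ : 0 < κ) (hd : 0 < d) (hd1 : d ≤ 1) (hU : 1 ≤ U)
    (hdM : - Real.log d ≤ M) (hUM : Real.log U ≤ M)
    (hM0 : 0 ≤ M)
    (hq : Real.exp (4 * C) * d / Real.exp (-(4 * C)) + 1 / U + M * ε < κ) (hεκ : ε < κ) :
    ∀ᵐ x ∂P, ∀ᶠ n in atTop, |lp (sampled T₁ T₂ f n x) - Real.log s| ≤ κ := by
  set h : Ω → ℝ := fun x => b₁ x * f x * b₂ x with hh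
  set l : ℝ := Real.exp (-(4 * C)) with hl
  set L : ℝ := Real.exp (4 * C) with hL
  have hl0 : 0 < l := Real.exp_pos _
  have hl1 : l ≤ 1 := by rw [hl]; exact Real.exp_le_one_iff.2 (by linarith)
  have hL0 : 0 < L := Real.exp_pos _
  have hL1 : 1 ≤ L := Real.one_le_exp (by linarith)
  have hf0 : ∀ x, 0 < f x := fun x => (Real.exp_pos _).trans_le (hf x)
  have hle₁ : MeasurableSpace.invariants T₁ ≤ mΩ := MeasurableSpace.invariants_le T₁
  have hle₂ : MeasurableSpace.invariants T₂ ≤ mΩ := MeasurableSpace.invariants_le T₂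
  have hb₁M : Measurable b₁ := hb₁m.mono hle₁ le_rfl
  have hb₂M : Measurable b₂ := hb₂m.mono hle₂ le_rfl
  have hwM : Measurable w := hwm.mono hle₁ le_rfl
  have hhM : Measurable h := (hb₁M.mul hfm).mul hb₂M
  have hh0 : ∀ x, 0 < h x := fun x => hl0.trans_le (hhl x)
  have hhb : ∀ x, |h x| ≤ L := fun x => by rw [abs_of_pos (hh0 x)]; exact hhL x
  have hhi : Integrable h P := bdd_int hhM hhb
  -- rows
  have hrow : ∀ᵐ x ∂P, Tendsto (fun n => er (sampled T₁ T₂ h n x)) atTop (𝓝 0) := by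
    have h1 : ∀ᵐ x ∂P, Tendsto (fun n : ℕ => av T₂ n h x) atTop (𝓝 1) := by
      filter_upwards [birkhoff_L1 hT₂ hhM hhi, hc2] with x hx1 hx2
      rwa [hx2] at hx1
    have h2 := erg_dev hT₁ hT₂ hhM (w := fun _ => (1 : ℝ)) measurable_const hL0.le hhb
      (fun x => by simpa using hL1) h1
    filter_upwards [h2] with x hx
    refine hx.congr fun n => ?_
    rw [er_sampled hc]
  -- columns
  have hcol : ∀ᵐ x ∂P, Tendsto (fun n : ℕ => av T₂ n (fun y => |av T₁ n h y - w y|) x) atTop (𝓝 0) := by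
    have h1 : ∀ᵐ x ∂P, Tendsto (fun n : ℕ => av T₁ n h x) atTop (𝓝 (w x)) := by
      filter_upwards [birkhoff_L1 hT₁ hhM hhi, hc1] with x hx1 hx2
      rwa [hx2] at hx1
    exact erg_dev hT₂ hT₁ hhM hwM hL0.le hhb hwL h1
  have hw1 : ∀ᵐ x ∂P, Tendsto (fun n : ℕ => av T₂ n (fun y => |w y - 1|) x) atTop
      (𝓝 (∫ y, |w y - 1| ∂P)) := by
    have hm : Measurable fun y => |w y - 1| := (hwM.sub measurable_const).abs
    have hbd : ∀ y, |(|w y - 1|)| ≤ L + 1 := by
      intro y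
      rw [abs_abs]
      refine (abs_sub _ _).trans ?_
      rw [abs_one]
      have := hwL y
      linarith
    have h1 := birkhoff_L1 hT₂ hm (bdd_int hm hbd)
    have h2 := const_of_inv (P := P) (S := T₁) hT₂ hc herg hm (by linarith) hbd (fun x => by
      rw [show w (T₁ x) = w x from inv_iter hwm 1 x])
    filter_upwards [h1, h2] with x hx1 hx2
    rwa [hx2] at hx1
  have hlog1 : ∀ᵐ x ∂P, Tendsto (fun n : ℕ => av T₂ n (fun y => Real.log (b₁ y)) x) atTop
      (𝓝 (∫ y, Real.log (b₁ y) ∂P)) := by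
    have hm : Measurable fun y => Real.log (b₁ y) := log_meas hb₁M
    have h1 := birkhoff_L1 hT₂ hm (bdd_int hm hK₁)
    have hK0 : 0 ≤ |K₁| := abs_nonneg _
    have h2 := const_of_inv (P := P) (S := T₁) hT₂ hc herg hm hK0
      (fun y => (hK₁ y).trans (le_abs_self _)) (fun x => by
      rw [show b₁ (T₁ x) = b₁ x from inv_iter hb₁m 1 x])
    filter_upwards [h1, h2] with x hx1 hx2
    rwa [hx2] at hx1
  have hlog2 : ∀ᵐ x ∂P, Tendsto (fun n : ℕ => av T₁ n (fun y => Real.log (b₂ y)) x) atTop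
      (𝓝 (∫ y, Real.log (b₂ y) ∂P)) := by
    have hm : Measurable fun y => Real.log (b₂ y) := log_meas hb₂M
    have h1 := birkhoff_L1 hT₁ hm (bdd_int hm hK₂)
    have hK0 : 0 ≤ |K₂| := abs_nonneg _
    have h2 := const_of_inv (P := P) (S := T₂) hT₁ hc.symm (fun s h1 h2 h3 => herg s h1 h3 h2) hm hK0
      (fun y => (hK₂ y).trans (le_abs_self _)) (fun x => by
      rw [show b₂ (T₂ x) = b₂ x from inv_iter hb₂m 1 x])
    filter_upwards [h1, h2] with x hx1 hx2
    rwa [hx2] at hx1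
  filter_upwards [hrow, hcol, hw1, hlog1, hlog2] with x x1 x2 x3 x4 x5
  -- relation between the two matrices
  have hrel : ∀ n : ℕ, 0 < n → lp (sampled T₁ T₂ h n x) = lp (sampled T₁ T₂ f n x) +
      av T₁ n (fun y => Real.log (b₂ y)) x + av T₂ n (fun y => Real.log (b₁ y)) x := by
    intro n hn
    have e1 : sampled T₁ T₂ h n x = Matrix.of fun i j : Fin n =>
        b₁ (T₂^[(j : ℕ)] x) * sampled T₁ T₂ f n x i j * b₂ (T₁^[(i : ℕ)] x) := by
      ext i j
      simp only [sampled, Matrix.of_apply, hh]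
      rw [inv_iter hb₁m (i : ℕ) (T₂^[(j : ℕ)] x), comm_iter hc i j x,
        inv_iter hb₂m (j : ℕ) (T₁^[(i : ℕ)] x)]
    have hA0 : ∀ i j : Fin n, 0 < sampled T₁ T₂ f n x i j := fun i j => hf0 _
    have e2 := lp_scale hn hA0 (x := fun i : Fin n => b₂ (T₁^[(i : ℕ)] x))
      (y := fun j : Fin n => b₁ (T₂^[(j : ℕ)] x)) (fun i => hb₂0 _) (fun j => hb₁0 _)
    rw [e1, e2]
    unfold av
    rw [inv_mul_eq_div, inv_mul_eq_div, Finset.sum_range, Finset.sum_range]
  -- the value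
  have hV : Real.log s ≤ -(∫ y, Real.log (b₁ y) ∂P) - ∫ y, Real.log (b₂ y) ∂P := by
    have h1 := Real.log_le_log hs hs1
    rw [Real.log_inv, gm, gm, ← Real.exp_add, Real.log_exp] at h1
    linarith
  have hV' : -(∫ y, Real.log (b₁ y) ∂P) - ∫ y, Real.log (b₂ y) ∂P ≤ Real.log s + ε := by
    have h1 := Real.log_le_log (inv_pos.2 (mul_pos (gm_pos (P := P) b₁) (gm_pos (P := P) b₂))) hs2
    rw [Real.log_inv, gm, gm, ← Real.exp_add, Real.log_exp, Real.log_mul hs.ne' (Real.exp_pos _).ne',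
      Real.log_exp] at h1
    linarith
  -- bounds
  set E : ℕ → ℝ := fun n => er (sampled T₁ T₂ h n x) with hE
  set G : ℕ → ℝ := fun n => av T₂ n (fun y => |av T₁ n h y - w y|) x with hG
  set W : ℕ → ℝ := fun n => av T₂ n (fun y => |w y - 1|) x with hW
  set A₁ : ℕ → ℝ := fun n => av T₂ n (fun y => Real.log (b₁ y)) x with hA₁
  set A₂ : ℕ → ℝ := fun n => av T₁ n (fun y => Real.log (b₂ y)) x with hA₂
  set H : ℕ → ℝ := fun n => (∑ k ∈ Finset.range n, 1 / ((k : ℝ) + 1)) / n with hH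
  have hec : ∀ n, ec (sampled T₁ T₂ h n x) ≤ G n + W n := by
    intro n
    rw [ec_sampled]
    have e1 : G n + W n = av T₂ n (fun y => |av T₁ n h y - w y| + |w y - 1|) x := by
      simp only [hG, hW]
      unfold av
      rw [Finset.sum_add_distrib]; ring
    rw [e1]
    apply av_mono
    intro y
    have : av T₁ n h y - 1 = (av T₁ n h y - w y) + (w y - 1) := by ring
    rw [this]
    exact abs_add_le _ _
  have hup : ∀ n, 0 < n → lp (sampled T₁ T₂ f n x) ≤ E n + L * H n - A₁ n - A₂ n := by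
    intro n hn
    have h1 := lp_upper hn (A := sampled T₁ T₂ h n x) (fun i j => hh0 _) (fun i j => hhL _)
    rw [hrel n hn] at h1
    linarith
  have hlow : ∀ n, 0 < n → -(L * d / l + 1 / U + (E n / l + M * (G n + W n + L * E n / l))) - A₁ n - A₂ n ≤
      lp (sampled T₁ T₂ f n x) := by
    intro n hn
    have h1 := lp_lower hn (B := sampled T₁ T₂ h n x) hl0 hl1 (fun i j => hhl _) (fun i j => hhL _)
      hd hd1 hU hdM hUM
    rw [hrel n hn] at h1
    have h2 := mul_le_mul_of_nonneg_left (hec n) hM0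
    have h3 : M * (G n + W n + L * E n / l) = M * (G n + W n) + M * (L * E n / l) := by ring
    have h4 : M * (ec (sampled T₁ T₂ h n x) + L * E n / l) =
      M * ec (sampled T₁ T₂ h n x) + M * (L * E n / l) := by ring
    rw [h3]
    rw [h4] at h1
    linarith
  have hupl : Tendsto (fun n => E n + L * H n - A₁ n - A₂ n) atTop
      (𝓝 (0 + L * 0 - (∫ y, Real.log (b₁ y) ∂P) - ∫ y, Real.log (b₂ y) ∂P)) :=
    ((x1.add (harm_lim.const_mul L)).sub x4).sub x5
  have hlowl : Tendsto (fun n => -(L * d / l + 1 / U + (E n / l + M * (G n + W n + L * E n / l)))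
      - A₁ n - A₂ n) atTop (𝓝 (-(L * d / l + 1 / U + (0 / l + M * (0 + (∫ y, |w y - 1| ∂P) + L * 0 / l)))
      - (∫ y, Real.log (b₁ y) ∂P) - ∫ y, Real.log (b₂ y) ∂P)) := by
    refine Tendsto.sub (Tendsto.sub (Tendsto.neg ?_) x4) x5
    refine tendsto_const_nhds.add ((x1.div_const l).add (Tendsto.const_mul M ?_))
    exact (x2.add x3).add ((x1.const_mul L).div_const l)
  have e1 : ∀ᶠ n in atTop, E n + L * H n - A₁ n - A₂ n < Real.log s + κ :=
    (tendsto_order.1 hupl).2 _ (by linarith)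
  have e2 : ∀ᶠ n in atTop, Real.log s - κ < -(L * d / l + 1 / U + (E n / l + M * (G n + W n + L * E n / l)))
      - A₁ n - A₂ n := by
    refine (tendsto_order.1 hlowl).1 _ ?_
    have h1 : M * (∫ y, |w y - 1| ∂P) ≤ M * ε := mul_le_mul_of_nonneg_left hdev hM0
    have h2 : M * (0 + (∫ y, |w y - 1| ∂P) + L * 0 / l) = M * ∫ y, |w y - 1| ∂P := by ring
    rw [h2, zero_div]
    linarith
  filter_upwards [e1, e2, eventually_gt_atTop 0] with n h1 h2 hn
  rw [abs_le]
  constructor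
  · linarith [hlow n hn]
  · linarith [hup n hn]

/-- The law of large permanents for functions with values in a compact interval of `(0, ∞)`. -/
theorem main_bdd [IsProbabilityMeasure P] (hT₁ : MeasurePreserving T₁ P P)
    (hT₂ : MeasurePreserving T₂ P P) (hc : Function.Commute T₁ T₂)
    (herg : ∀ s, MeasurableSet s → T₁ ⁻¹' s = s → T₂ ⁻¹' s = s → P s = 0 ∨ P s = 1)
    {C : ℝ} (hC : 0 ≤ C) (hfm : Measurable f) (hf : ∀ x, Real.exp (-C) ≤ f x)
    (hf' : ∀ x, f x ≤ Real.exp C) :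
    ∃ s : ℝ, 0 < s ∧ smean P T₁ T₂ f = ENNReal.ofReal s ∧
      ∀ᵐ x ∂P, Tendsto (fun n => pmean (sampled T₁ T₂ f n x)) atTop (𝓝 s) := by
  obtain ⟨s, hs, hsE, hopt⟩ := exists_opt (P := P) hT₂ hc herg hC hfm hf hf'
  refine ⟨s, hs, hsE, ?_⟩
  have hf0 : ∀ x, 0 < f x := fun x => (Real.exp_pos _).trans_le (hf x)
  have hall : ∀ j : ℕ, ∀ᵐ x ∂P, ∀ᶠ n in atTop,
      |lp (sampled T₁ T₂ f n x) - Real.log s| ≤ 1 / ((j : ℝ) + 1) := by
    intro j
    set κ : ℝ := 1 / ((j : ℝ) + 1) with hκ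
    have hκ0 : 0 < κ := by positivity
    set q : ℝ := Real.exp (4 * C) / Real.exp (-(4 * C)) with hq
    have hq0 : 0 < q := by positivity
    set d : ℝ := min 1 (κ / (4 * q)) with hd
    have hd0 : 0 < d := lt_min one_pos (by positivity)
    have hd1 : d ≤ 1 := min_le_left _ _
    set U : ℝ := max 1 (4 / κ) with hU
    have hU1 : 1 ≤ U := le_max_left _ _
    set M : ℝ := max (-Real.log d) (Real.log U) with hM
    have hM0 : 0 ≤ M := (Real.log_nonneg hU1).trans (le_max_right _ _)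
    set ε : ℝ := min (κ / 2) (κ / (4 * (M + 1))) with hε
    have hε0 : 0 < ε := lt_min (by positivity) (by positivity)
    obtain ⟨b₁, b₂, w, h1, h2, h3, h4, h5, ⟨K₁, h6⟩, ⟨K₂, h7⟩, h8, h9, h10, h11, h12, h13, h14, h15⟩ :=
      hopt ε hε0
    refine key hT₁ hT₂ hc herg hC hfm hf hs h1 h2 h3 h4 h5 h6 h7 h8 h9 h10 h11 h12 h13 h14 h15 hκ0
      hd0 hd1 hU1 (le_max_left _ _) (le_max_right _ _) hM0 ?_ ?_
    · have e1 : Real.exp (4 * C) * d / Real.exp (-(4 * C)) ≤ κ / 4 := by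
        have : Real.exp (4 * C) * d / Real.exp (-(4 * C)) = q * d := by rw [hq]; ring
        rw [this]
        calc q * d ≤ q * (κ / (4 * q)) := mul_le_mul_of_nonneg_left (min_le_right _ _) hq0.le
          _ = κ / 4 := by field_simp
      have e2 : 1 / U ≤ κ / 4 := by
        have h16 : 4 / κ ≤ U := le_max_right _ _
        rw [div_le_div_iff₀ (by linarith) (by norm_num)]
        rw [div_le_iff₀ hκ0] at h16
        linarith
      have e3 : M * ε ≤ κ / 4 := by
        calc M * ε ≤ (M + 1) * (κ / (4 * (M + 1))) :=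
              mul_le_mul (by linarith) (min_le_right _ _) hε0.le (by linarith)
          _ = κ / 4 := by field_simp
      linarith
    · exact (min_le_left _ _).trans_lt (half_lt_self hκ0)
  rw [← ae_all_iff] at hall
  filter_upwards [hall] with x hx
  have h1 : Tendsto (fun n => lp (sampled T₁ T₂ f n x)) atTop (𝓝 (Real.log s)) := by
    rw [Metric.tendsto_atTop']
    intro ε hε
    obtain ⟨j, hj⟩ := exists_nat_one_div_lt hε
    obtain ⟨N, hN⟩ := eventually_atTop.1 (hx j)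
    refine ⟨N, fun n hn => ?_⟩
    rw [Real.dist_eq]
    exact (hN n hn.le).trans_lt hj
  have h2 : Tendsto (fun n => Real.exp (lp (sampled T₁ T₂ f n x))) atTop (𝓝 s) := by
    have := (Real.continuous_exp.tendsto (Real.log s)).comp h1
    rwa [Real.exp_log hs] at this
  refine h2.congr fun n => ?_
  rw [pmean_eq]
  exact fun i j => hf0 _

/-- The law of large permanents. -/
theorem main [IsProbabilityMeasure P] (hT₁ : MeasurePreserving T₁ P P)
    (hT₂ : MeasurePreserving T₂ P P) (hc : Function.Commute T₁ T₂)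
    (herg : ∀ s, MeasurableSet s → T₁ ⁻¹' s = s → T₂ ⁻¹' s = s → P s = 0 ∨ P s = 1)
    (hfm : Measurable f) (hf0 : ∀ᵐ x ∂P, 0 < f x) (hf : ∃ C, ∀ᵐ x ∂P, |Real.log (f x)| ≤ C) :
    smean P T₁ T₂ f ≠ 0 ∧ smean P T₁ T₂ f ≠ ∞ ∧
      ∀ᵐ x ∂P, Tendsto (fun n => pmean (sampled T₁ T₂ f n x)) atTop (𝓝 (smean P T₁ T₂ f).toReal) := by
  obtain ⟨C₀, hC₀⟩ := hf
  set C : ℝ := |C₀| with hCdef
  have hC : 0 ≤ C := abs_nonneg _
  set f' : Ω → ℝ := fun x => max (Real.exp (-C)) (min (Real.exp C) (f x)) with hf'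
  have hf'm : Measurable f' := measurable_const.max (measurable_const.min hfm)
  have heq : ∀ᵐ x ∂P, f' x = f x := by
    filter_upwards [hf0, hC₀] with x h1 h2
    have h3 : |Real.log (f x)| ≤ C := h2.trans (le_abs_self _)
    rw [abs_le] at h3
    have h4 : Real.exp (-C) ≤ f x := by rw [← Real.le_log_iff_exp_le h1]; exact h3.1
    have h5 : f x ≤ Real.exp C := by rw [← Real.log_le_iff_le_exp h1]; exact h3.2
    simp only [hf']
    rw [min_eq_right h5, max_eq_right h4]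
  obtain ⟨s, hs, hsE, hlim⟩ := main_bdd hT₁ hT₂ hc herg hC hf'm (fun x => le_max_left _ _)
    (fun x => max_le (Real.exp_le_exp.2 (by linarith)) (min_le_left _ _))
  have hsm : smean P T₁ T₂ f = ENNReal.ofReal s := by
    rw [← hsE]
    unfold smean
    have : ∀ g₁ g₂ : Ω → ℝ, ∫⁻ ω, ENNReal.ofReal (g₁ ω * f ω * g₂ ω) ∂P =
        ∫⁻ ω, ENNReal.ofReal (g₁ ω * f' ω * g₂ ω) ∂P := by
      intro g₁ g₂
      apply lintegral_congr_ae
      filter_upwards [heq] with x hx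
      rw [hx]
    simp only [this]
  rw [hsm, ENNReal.toReal_ofReal hs.le]
  refine ⟨(ENNReal.ofReal_pos.2 hs).ne', ENNReal.ofReal_ne_top, ?_⟩
  have hall : ∀ᵐ x ∂P, ∀ i j : ℕ, f' (T₁^[i] (T₂^[j] x)) = f (T₁^[i] (T₂^[j] x)) := by
    rw [ae_all_iff]; intro i
    rw [ae_all_iff]; intro j
    exact ((hT₁.iterate i).comp (hT₂.iterate j)).quasiMeasurePreserving.ae heq
  filter_upwards [hlim, hall] with x h1 h2
  refine h1.congr fun n => ?_
  congr 1
  ext i j
  exact h2 i j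

end Pool.Agent.N256.LLP
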